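import Pool.Agent.U963.AR.Qt

/-!
# The base word and its trace
-/

set_option autoImplicit false

namespace Pool.Agent.U963.AR

open Pool.Agent.Y463.SK
open Pool.Agent.U963.JN (com)

/-- `σ_0 σ_1⁻³ σ_0² σ_1⁻³ σ_0` -/
def gg : List (Bool × ℕ) := 
  [(true, 0), (false, 1), (false, 1), (false, 1), (true, 0), (true, 0), (false, 1), (false, 1), (false, 1), (true, 0)]

/-- `σ_1² σ_0⁻¹ σ_1³ σ_0⁻¹ σ_1²` -/
def hh : List (Bool × ℕ) := 
  [(true, 1), (true, 1), (false, 0), (true, 1), (true, 1), (true, 1), (false, 0), (true, 1), (true, 1)]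

/-- the base word -/
def W0 : List (Bool × ℕ) := com gg hh

/-! ### polynomials as lists -/

section
variable {R : Type*} [CommRing R]

def ad : List ℤ → List ℤ → List ℤ
  | [], l => l
  | a :: l, [] => a :: l
  | a :: l, b :: m => (a + b) :: ad l m

def ng (l : List ℤ) : List ℤ := l.map (fun a => -a)

/-- the value at `x` -/
def ev (x : R) : List ℤ → R
  | [] => 0
  | a :: l => (a : R) + x * ev x l

theorem ev_ad (x : R) : ∀ l m : List ℤ, ev x (ad l m) = ev x l + ev x m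
  | [], l => by simp [ad, ev]
  | a :: l, [] => by simp [ad, ev]
  | a :: l, b :: m => by
    have ih := ev_ad x l m
    simp only [ad, ev, ih]
    push_cast
    ring

theorem ev_ng (x : R) (l : List ℤ) : ev x (ng l) = - ev x l := by
  induction l with
  | nil => simp [ng, ev]
  | cons a l ih =>
    have : ng (a :: l) = (-a) :: ng l := rfl
    rw [this, ev, ih, ev]
    push_cast
    ring

theorem ev_sh (x : R) (l : List ℤ) : ev x (0 :: l) = x * ev x l := by simp [ev]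

/-- multiplication by `c` -/
def V3.sm (c : R) (v : V3 R) : V3 R := ⟨c * v.a0, c * v.a1, c * v.a2, c * v.a3, c * v.a4⟩

/-- a letter, multiplied by a unit -/
def st (x : R) (v : V3 R) (l : Bool × ℕ) : V3 R :=
  match l.1, l.2 with
  | true, 0 => ⟨x^2*v.a0, x*(v.a0+v.a3)-v.a1, x^2*v.a2, x^2*v.a3, x*v.a2-v.a4⟩
  | true, _ => ⟨x^2*v.a0, x^2*v.a1, x*(v.a0+v.a4)-v.a2, x*v.a1-v.a3, x^2*v.a4⟩
  | false, 0 => ⟨v.a0, x*(v.a0+v.a3)-x^2*v.a1, v.a2, v.a3, x*v.a2-x^2*v.a4⟩
  | false, _ => ⟨v.a0, v.a1, x*(v.a0+v.a4)-x^2*v.a2, x*v.a1-x^2*v.a3, v.a4⟩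

/-- the same for lists -/
def stL (v : V3 (List ℤ)) (l : Bool × ℕ) : V3 (List ℤ) :=
  match l.1, l.2 with
  | true, 0 => ⟨0::0::v.a0, ad (0::ad v.a0 v.a3) (ng v.a1), 0::0::v.a2, 0::0::v.a3, ad (0::v.a2) (ng v.a4)⟩
  | true, _ => ⟨0::0::v.a0, 0::0::v.a1, ad (0::ad v.a0 v.a4) (ng v.a2), ad (0::v.a1) (ng v.a3), 0::0::v.a4⟩
  | false, 0 => ⟨v.a0, ad (0::ad v.a0 v.a3) (0::0::ng v.a1), v.a2, v.a3, ad (0::v.a2) (0::0::ng v.a4)⟩
  | false, _ => ⟨v.a0, v.a1, ad (0::ad v.a0 v.a4) (0::0::ng v.a2), ad (0::v.a1) (0::0::ng v.a3), v.a4⟩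

theorem ev_stL (x : R) (v : V3 (List ℤ)) (l : Bool × ℕ) : (stL v l).map (ev x) = st x (v.map (ev x)) l := by
  unfold stL st
  split <;> simp only [V3.map, ev_ad, ev_sh, ev_ng] <;> congr 1 <;> ring

/-- the weight of a letter -/
def wl (A : R) (l : Bool × ℕ) : R := if l.1 then A ^ 3 else A

theorem st_eq {A A' : R} (hA : A * A' = 1) (v : V3 R) (l : Bool × ℕ) : 
    st (A^2) v l = (if l.1 then stp A A' (-A^2-A'^2) v l.2 else stp A' A (-A^2-A'^2) v l.2).sm (wl A l) := by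
  obtain ⟨b, i⟩ := l
  have h2 : A ^ 2 * A' ^ 2 = 1 := by linear_combination (A * A' + 1) * hA
  cases b with
  | true =>
    simp only [if_true, wl]
    rcases i with _ | i
    · simp only [st, stp, V3.sm]
      congr 1
      · ring
      · linear_combination (-(A ^ 2 * (v.a0 + v.a3)) + v.a1 * (A ^ 4)) * hA + (v.a1 * A * A') * h2 + v.a1 * hA
      · ring
      · ring
      · linear_combination (-(A ^ 2 * v.a2) + v.a4 * (A ^ 4)) * hA + (v.a4 * A * A') * h2 + v.a4 * hA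
    · simp only [st, stp, V3.sm]
      congr 1
      · ring
      · ring
      · linear_combination (-(A ^ 2 * (v.a0 + v.a4)) + v.a2 * (A ^ 4)) * hA + (v.a2 * A * A') * h2 + v.a2 * hA
      · linear_combination (-(A ^ 2 * v.a1) + v.a3 * (A ^ 4)) * hA + (v.a3 * A * A') * h2 + v.a3 * hA
      · ring
  | false =>
    simp only [Bool.false_eq_true, if_false, wl]
    rcases i with _ | i
    · simp only [st, stp, V3.sm]
      congr 1
      · linear_combination (-v.a0) * hA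
      · linear_combination (-v.a1) * hA + v.a1 * h2
      · linear_combination (-v.a2) * hA
      · linear_combination (-v.a3) * hA
      · linear_combination (-v.a4) * hA + v.a4 * h2
    · simp only [st, stp, V3.sm]
      congr 1
      · linear_combination (-v.a0) * hA
      · linear_combination (-v.a1) * hA
      · linear_combination (-v.a2) * hA + v.a2 * h2
      · linear_combination (-v.a3) * hA + v.a3 * h2
      · linear_combination (-v.a4) * hA

theorem stp_sm (u u' d c : R) (v : V3 R) (i : ℕ) : stp u u' d (v.sm c) i = (stp u u' d v i).sm c := by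
  unfold stp V3.sm
  split <;> simp only <;> congr 1 <;> ring

theorem st_sm (x c : R) (v : V3 R) (l : Bool × ℕ) : st x (v.sm c) l = (st x v l).sm c := by
  unfold st V3.sm
  split <;> simp only <;> congr 1 <;> ring

theorem sm_sm (c c' : R) (v : V3 R) : (v.sm c).sm c' = v.sm (c' * c) := by
  simp only [V3.sm, mul_assoc]

theorem fold_sm (x c : R) (w : List (Bool × ℕ)) : ∀ v : V3 R, w.foldl (st x) (v.sm c) = (w.foldl (st x) v).sm c := by
  induction w with
  | nil => intro v; rfl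
  | cons l w ih => intro v; rw [List.foldl_cons, st_sm, ih, List.foldl_cons]

theorem fold_eq {A A' : R} (hA : A * A' = 1) (w : List (Bool × ℕ)) : ∀ v : V3 R, 
    w.foldl (st (A^2)) v = (run A A' (-A^2-A'^2) w v).sm (w.map (wl A)).prod := by
  induction w with
  | nil => intro v; simp [run, V3.sm]
  | cons l w ih =>
    intro v
    rw [List.foldl_cons, st_eq hA, fold_sm, ih, sm_sm, run, List.map_cons, List.prod_cons]

theorem fold_ev (x : R) (w : List (Bool × ℕ)) : ∀ v : V3 (List ℤ), 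
    (w.foldl stL v).map (ev x) = w.foldl (st x) (v.map (ev x)) := by
  induction w with
  | nil => intro v; rfl
  | cons l w ih => intro v; rw [List.foldl_cons, ih, ev_stL, List.foldl_cons]

/-- the trace, multiplied by `x` -/
def cb (v : V3 (List ℤ)) : List ℤ := 
  ad (ad (0::ad v.a0 v.a0) (ng (ad (0::0::ad v.a1 v.a2) (ad v.a1 v.a2)))) (0::ad v.a3 v.a4)

theorem ev_cb (x : R) (v : V3 (List ℤ)) : ev x (cb v) = 
    2 * x * (v.map (ev x)).a0 - (x^2 + 1) * ((v.map (ev x)).a1 + (v.map (ev x)).a2) + 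
      x * ((v.map (ev x)).a3 + (v.map (ev x)).a4) := by
  unfold cb V3.map
  simp only [ev_ad, ev_sh, ev_ng]
  ring

end

def LL : List ℤ := [0, 0, 0, 1, 0, -9, 0, 46, 0, -173, 0, 528, 0, -1377, 0, 3165, 0, -6544, 0, 12347, 0, -21481, 0, 34731, 0, -52498, 0, 74531, 0, -99737, 0, 126155, 0, -151146, 0, 171793, 0, -185435, 0, 190208, 0, -185435, 0, 171793, 0, -151146, 0, 126155, 0, -99737, 0, 74531, 0, -52498, 0, 34731, 0, -21481, 0, 12347, 0, -6544, 0, 3165, 0, -1377, 0, 528, 0, -173, 0, 46, 0, -9, 0, 1]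

theorem calc_LL : cb (W0.foldl stL ⟨[1], [], [], [], []⟩) = LL := by decide +kernel

section
variable {R : Type*} [CommRing R]

theorem ev_LL (x : R) : ev x LL = 2 * x ^ 39 - x ^ 3 * ((x^4+1)*(x^4-x^2+1))^4 * 
    ((x^4+1)*(x^4-x^2+1) - x^4)^2 * (2*x^4 - (x^4+1)*(x^4-x^2+1))^3 := by
  unfold LL
  simp only [ev]
  push_cast
  ring

theorem wt_W0 (A : R) : (W0.map (wl A)).prod = A ^ 76 := by
  simp [W0, gg, hh, com, invL, wl]
  ring

/-- **The trace of the base word.** -/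
theorem tr2_W0 {A A' : R} (hA : A * A' = 1) {d s : R} (hd : d = -A^2-A'^2) (hs : s = (d^2-2)^2 - (d^2-2)) : 
    tr2 d (run A A' d W0 (one R)) = 2 - s^4 * (s-1)^2 * (2-s)^3 := by
  have h1 := fold_eq hA W0 (one R)
  have h2 := fold_ev (A^2) W0 ⟨[1], [], [], [], []⟩
  have h3 : V3.map (ev (A^2)) ⟨[1], [], [], [], []⟩ = one R := by simp [V3.map, ev, one]
  have h4 := ev_cb (A^2) (W0.foldl stL ⟨[1], [], [], [], []⟩)
  rw [calc_LL, ev_LL, h2, h3, h1, ← hd, wt_W0] at h4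
  have h5 : A ^ 78 * A' ^ 78 = 1 := by rw [← mul_pow, hA, one_pow]
  have h6 : A ^ 2 * A' ^ 2 = 1 := by rw [← mul_pow, hA, one_pow]
  have hx : A ^ 2 * d = -(A ^ 4 + 1) := by rw [hd]; linear_combination (-1) * h6
  have hy : A ^ 4 * (d^2 - 2) = A ^ 8 + 1 := by
    have : A ^ 4 * (d^2 - 2) = (A ^ 2 * d) ^ 2 - 2 * A ^ 4 := by ring
    rw [this, hx]
    ring
  have hS : ((A^2)^4+1)*((A^2)^4-(A^2)^2+1) = A ^ 8 * s := by
    have : A ^ 8 * s = (A ^ 4 * (d^2-2)) ^ 2 - A ^ 4 * (A ^ 4 * (d^2 - 2)) := by rw [hs]; ring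
    rw [this, hy]
    ring
  rw [hS] at h4
  have key : A ^ 78 * tr2 d (run A A' d W0 (one R)) = A ^ 78 * (2 - s^4 * (s-1)^2 * (2-s)^3) := by
    have e1 : A ^ 78 * tr2 d (run A A' d W0 (one R)) = 
        A ^ 76 * (2 * A ^ 2 * (run A A' d W0 (one R)).a0 + (A ^ 2 * d) * ((run A A' d W0 (one R)).a1 + 
          (run A A' d W0 (one R)).a2) + A ^ 2 * ((run A A' d W0 (one R)).a3 + (run A A' d W0 (one R)).a4)) := by
      unfold tr2
      ring
    rw [e1, hx]
    simp only [V3.sm] at h4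
    linear_combination (-1) * h4
  have := congrArg (A' ^ 78 * ·) key
  linear_combination this - (tr2 d (run A A' d W0 (one R)) - (2 - s^4 * (s-1)^2 * (2-s)^3)) * h5

end

/-- **The base word is close to the identity.** -/
theorem Par.r_W0 (p : Par) {A A' : ℂ} (hA : A * A' = 1) (h2 : A ^ 2 = p.C + p.S * Complex.I) 
    (h3 : A' ^ 2 = p.C - p.S * Complex.I) : 4 * p.r W0 ^ 2 ≤ (8 / 9) ^ 3 := by
  set y : ℝ := 4 * p.C ^ 2 - 2 with hy
  set s : ℝ := y ^ 2 - y with hs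
  have hd : (p.d : ℂ) = -A^2 - A'^2 := by
    rw [h2, h3]
    unfold Par.d
    push_cast
    ring
  have hs' : (s : ℂ) = ((p.d : ℂ)^2-2)^2 - ((p.d : ℂ)^2-2) := by
    rw [hs, hy]
    unfold Par.d
    push_cast
    ring
  have e1 := tr2_W0 hA hd hs'
  have hI : Complex.I * A' * (-Complex.I * A) = 1 := by
    linear_combination hA - A * A' * Complex.I_mul_I
  have e2 := p.tr2_co hA h2 W0 (by decide)
  unfold W0 at e2
  rw [chi_com hI, one_mul] at e2
  change tr2 (p.d : ℂ) (run A A' (p.d : ℂ) W0 (one ℂ)) = 2 * ((p.qw W0).re : ℂ) at e2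
  rw [e1] at e2
  have e3 : 2 - s^4 * (s-1)^2 * (2-s)^3 = 2 * (p.qw W0).re := by exact_mod_cast e2
  rw [p.r_sq]
  have hC := p.hC
  have hC1 := p.le_one
  have y1 : -1 ≤ y := by rw [hy]; nlinarith
  have y2 : y ≤ 2 := by rw [hy]; nlinarith [p.pos]
  have s1 : -(1/4) ≤ s := by rw [hs]; nlinarith [sq_nonneg (y - 1/2)]
  have s2 : s ≤ 2 := by rw [hs]; nlinarith
  have e4 : 2 - 2 * (p.qw W0).re = (s^2*(2-s)) * ((s*(2-s))^2 * (1 - s*(2-s))) := by
    clear_value s
    linear_combination e3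
  rw [e4]
  set u := s * (2 - s) with hu
  have hu1 : u ≤ 1 := by rw [hu]; nlinarith [sq_nonneg (s - 1)]
  rcases le_or_gt 0 s with h0 | h0
  · have hu0 : 0 ≤ u := mul_nonneg h0 (by linarith)
    have a1 : s^2*(2-s) ≤ 32/27 := by
      have : 0 ≤ (3*s-4)^2 * (3*s+2) := mul_nonneg (sq_nonneg _) (by linarith)
      nlinarith
    have a2 : u^2*(1-u) ≤ 4/27 := by
      have : 0 ≤ (3*u-2)^2 * (3*u+1) := mul_nonneg (sq_nonneg _) (by linarith)
      nlinarith
    have a3 : 0 ≤ u^2*(1-u) := mul_nonneg (sq_nonneg _) (by linarith)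
    calc 4 * (s^2*(2-s) * (u^2*(1-u))) ≤ 4 * (32/27 * (4/27)) := by
          have := mul_le_mul a1 a2 a3 (by norm_num)
          linarith
      _ ≤ (8/9)^3 := by norm_num
  · have b1 : s^2*(2-s) ≤ 9/64 := by nlinarith
    have b0 : 0 ≤ s^2*(2-s) := mul_nonneg (sq_nonneg _) (by linarith)
    have b2 : -(9/16) ≤ u := by rw [hu]; nlinarith
    have b4 : u ≤ 0 := by rw [hu]; nlinarith
    have b3 : u^2*(1-u) ≤ 1 := by nlinarith
    have b5 : 0 ≤ u^2*(1-u) := mul_nonneg (sq_nonneg _) (by linarith)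
    calc 4 * (s^2*(2-s) * (u^2*(1-u))) ≤ 4 * (9/64 * 1) := by
          have := mul_le_mul b1 b3 b5 (by norm_num)
          linarith
      _ ≤ (8/9)^3 := by norm_num

end Pool.Agent.U963.AR
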