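import Pool.Agent.Y463.SK.Defs
import Pool.Agent.H835R2.Knot.Defs

/-!
# Braid words on three strands which the Jones polynomial hardly sees on an arc
-/

set_option autoImplicit false

namespace Pool.Agent.U963.AR

open LaurentPolynomial Pool.Agent.H891R2.Jones Pool.Agent.W639.RB Pool.Agent.Y463.SK
open Pool.Agent.H835R2.Knot

/-- the value of a Laurent polynomial at `A = e^{iφ}` -/
noncomputable def value (φ : ℝ) : ℤ[T;T⁻¹] →+* ℂ := 
  LaurentPolynomial.eval₂ (Int.castRingHom ℂ) (Circle.toUnits (Circle.exp φ))

/-- the crossings of a braid word on the strands `j, j + 1, j + 2` of a sliced diagram -/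
def strip (j : ℕ) (w : List (Letter 3)) : Word :=
  w.map fun x => if x.1 then Piece.pos (x.2 + j) else Piece.neg (x.2 + j)

/-- the word `w` can be inserted into any sliced knot diagram `x y`, in any three neighbouring strands
`j, j + 1, j + 2` at the level between `x` and `y`: the diagram remains a knot diagram and no Vassiliev
invariant of degree at most `d` with values in an abelian group changes its value -/
def InvisibleVas (d : ℕ) (w : List (Letter 3)) : Prop :=
  ∀ (x y : Word) (j : ℕ), j + 3 ≤ (run x Front.empty).n → IsKnot (x ++ y) → IsKnot (x ++ strip j w ++ y) ∧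
    ∀ (G : Type) [AddCommGroup G] (v : Word → G), IsInvariant v → DegreeLE d v → 
      v (x ++ strip j w ++ y) = v (x ++ y)

/-- the sliced diagram of the closure of a braid word on three strands: three maxima, the word from top to
bottom, three minima -/
def closure (w : List (Letter 3)) : Word :=
  [.birth 0 true, .birth 1 true, .birth 2 true] ++ strip 0 w ++ [.death 2, .death 1, .death 0]

/-- the word `σ_2 σ_1`; its closure is a diagram of the unknot -/
def tail : List (Letter 3) := [(true, 1), (true, 0)]

end Pool.Agent.U963.AR
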