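import Pool.Agent.U963.AR.Wrd

/-!
# Evaluation on the unit circle
-/

set_option autoImplicit false

namespace Pool.Agent.U963.AR

open LaurentPolynomial Complex Pool.Agent.H891R2.Jones Pool.Agent.W639.RB Pool.Agent.Y463.SK Pool.Agent.Y463.MP
open Pool.Agent.TH561 (dl)
open Pool.Agent.U963.JN (un fPoly_eq)

/-- the value at `A = e^{iφ}` -/
noncomputable def evc (φ : ℝ) : ℤ[T;T⁻¹] →+* ℂ := 
  LaurentPolynomial.eval₂ (Int.castRingHom ℂ) (Circle.toUnits (Circle.exp φ))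

theorem evc_T (φ : ℝ) (n : ℤ) : evc φ (T n) = ((Circle.exp φ : Circle) : ℂ) ^ n := by
  unfold evc
  rw [LaurentPolynomial.eval₂_T]
  simp

theorem norm_evc_T (φ : ℝ) (n : ℤ) : ‖evc φ (T n)‖ = 1 := by
  rw [evc_T, norm_zpow, Circle.norm_coe, one_zpow]

theorem evc_C (φ : ℝ) (a : ℤ) : evc φ (C a) = a := by
  unfold evc
  rw [LaurentPolynomial.eval₂_C]
  simp

/-- the values of a Laurent polynomial on the circle are bounded -/
theorem evc_bdd (f : ℤ[T;T⁻¹]) : ∃ K : ℝ, 0 ≤ K ∧ ∀ φ, ‖evc φ f‖ ≤ K := by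
  induction f using LaurentPolynomial.induction_on' with
  | add p q hp hq =>
    obtain ⟨K, h0, hK⟩ := hp
    obtain ⟨L, h1, hL⟩ := hq
    refine ⟨K + L, by positivity, fun φ => ?_⟩
    rw [map_add]
    exact (norm_add_le _ _).trans (add_le_add (hK φ) (hL φ))
  | C_mul_T n a =>
    refine ⟨‖(a : ℂ)‖, norm_nonneg _, fun φ => ?_⟩
    rw [map_mul, norm_mul, norm_evc_T, evc_C, mul_one]

theorem norm_un (φ : ℝ) (w : ℤ) : ‖evc φ (un w)‖ = 1 := by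
  unfold un
  rw [map_mul, norm_mul, norm_evc_T, mul_one]
  split_ifs <;> simp

/-- the parameters -/
noncomputable def par (φ : ℝ) (h : |φ| ≤ Real.pi / 6) : Par where
  C := Real.cos (2 * φ)
  S := Real.sin (2 * φ)
  cs := Real.cos_sq_add_sin_sq _
  hC := by
    rw [← Real.cos_pi_div_three, ← Real.cos_abs (2 * φ)]
    have h1 : |2 * φ| = 2 * |φ| := by rw [abs_mul, abs_two]
    apply Real.cos_le_cos_of_nonneg_of_le_pi (abs_nonneg _)
    · linarith [Real.pi_pos]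
    · rw [h1]; linarith

theorem circ_sq (φ : ℝ) : (evc φ (T 1)) ^ 2 = Real.cos (2 * φ) + Real.sin (2 * φ) * I := by
  rw [evc_T, zpow_one, Circle.coe_exp, ← Complex.exp_nat_mul]
  have : ((2 : ℕ) : ℂ) * (φ * I) = ((2 * φ : ℝ) : ℂ) * I := by push_cast; ring
  rw [this, Complex.exp_mul_I, ← Complex.ofReal_cos, ← Complex.ofReal_sin]

theorem circ_sq' (φ : ℝ) : (evc φ (T (-1))) ^ 2 = Real.cos (2 * φ) - Real.sin (2 * φ) * I := by
  rw [evc_T, zpow_neg, zpow_one, Circle.coe_exp, ← Complex.exp_neg, ← Complex.exp_nat_mul]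
  have : ((2 : ℕ) : ℂ) * (-(φ * I)) = ((-(2 * φ) : ℝ) : ℂ) * I := by push_cast; ring
  rw [this, Complex.exp_mul_I, ← Complex.ofReal_cos, ← Complex.ofReal_sin, Real.cos_neg, Real.sin_neg]
  push_cast
  ring

theorem circ_mul (φ : ℝ) : evc φ (T 1) * evc φ (T (-1)) = 1 := by
  rw [← map_mul, ← T_add]
  simp

theorem evc_dl (φ : ℝ) (h : |φ| ≤ Real.pi / 6) : evc φ dl = ((par φ h).d : ℂ) := by
  rw [Pool.Agent.U963.JN.dl_eq, map_sub, map_neg, map_pow, map_pow, circ_sq, circ_sq']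
  unfold Par.d par
  push_cast
  ring

theorem hIA (φ : ℝ) : I * evc φ (T (-1)) * (-I * evc φ (T 1)) = 1 := by
  linear_combination circ_mul φ - evc φ (T 1) * evc φ (T (-1)) * I_mul_I

/-- the coefficients of the words at `A = e^{iφ}` -/
theorem map_run_evc (φ : ℝ) (h : |φ| ≤ Real.pi / 6) (w : List (Bool × ℕ)) : 
    (run (T 1) (T (-1)) dl w (one ℤ[T;T⁻¹])).map (evc φ) = (par φ h).co (evc φ (T 1)) (evc φ (T (-1))) w := by
  rw [map_run, map_one', evc_dl φ h]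
  rfl

theorem re_le (q : Quaternion ℝ) : ‖q.re‖ ≤ ‖q‖ := by
  rw [Real.norm_eq_abs]
  have h := Quaternion.normSq_eq_norm_mul_self q
  rw [Quaternion.normSq_def'] at h
  exact abs_le_of_sq_le_sq (by nlinarith [sq_nonneg q.imI, sq_nonneg q.imJ, sq_nonneg q.imK]) (norm_nonneg _)

/-- **The bracket of the closure** at `A = e^{iφ}`. -/
theorem evc_clo (φ : ℝ) (h : |φ| ≤ Real.pi / 6) {k : ℕ} {w : List (Bool × ℕ)} (hw : Fw k w) (v : List (Bool × ℕ))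
    (hv : ∀ x ∈ v, x.2 + 1 < 3) : 
    ‖evc φ (draw (braidClosure 3) (w ++ v)).close.bracket - evc φ (draw (braidClosure 3) v).close.bracket‖ ≤ 
      2 * (par φ h).r w := by
  have hwv : ∀ x ∈ w ++ v, x.2 + 1 < 3 := by
    intro x hx
    rcases List.mem_append.1 hx with hx | hx
    · exact hw.lt x hx
    · exact hv x hx
  set p := par φ h with hp
  have h2 : evc φ (T 1) ^ 2 = p.C + p.S * I := circ_sq φ
  have hA := circ_mul φ
  rw [bracket_clo _ hwv, bracket_clo _ hv, tau_map, tau_map, map_run_evc φ h, map_run_evc φ h, evc_dl φ h, ← hp]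
  have e1 := p.tr2_co hA h2 (w ++ v) hwv
  have e2 := p.tr2_co hA h2 v hv
  have a1 : (p.co (evc φ (T 1)) (evc φ (T (-1))) (w ++ v)).a0 = (p.co (evc φ (T 1)) (evc φ (T (-1))) v).a0 := by
    unfold Par.co
    rw [run_a0, run_a0, chi_append, hw.bal _ _ hA, one_mul]
  unfold tau
  rw [a1, e1, e2, chi_append, hw.bal _ _ (hIA φ), one_mul]
  have e3 : ∀ a b c x y : ℂ, a * b + c * x - (a * b + c * y) = c * (x - y) := by intros; ring
  rw [e3, norm_mul]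
  have n1 : ‖chi (I * evc φ (T (-1))) (-I * evc φ (T 1)) v‖ = 1 := by
    clear e1 e2 a1 hv hwv
    induction v with
    | nil => simp [chi]
    | cons x v ih =>
      have e4 : chi (I * evc φ (T (-1))) (-I * evc φ (T 1)) (x :: v) = 
          (if x.1 then I * evc φ (T (-1)) else -I * evc φ (T 1)) * 
            chi (I * evc φ (T (-1))) (-I * evc φ (T 1)) v := by simp [chi]
      rw [e4, norm_mul, ih, mul_one]
      split_ifs
      · rw [norm_mul, norm_evc_T, norm_I, mul_one]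
      · rw [norm_mul, norm_evc_T, norm_neg, norm_I, mul_one]
  rw [n1, one_mul, ← mul_sub, norm_mul, ← Complex.ofReal_sub, Complex.norm_real, Complex.norm_ofNat]
  have e5 : (p.qw (w ++ v)).re - (p.qw v).re = ((p.qw w - 1) * p.qw v).re := by
    rw [p.qw_append, sub_mul, one_mul, Quaternion.re_sub]
  rw [e5]
  have e6 : ‖((p.qw w - 1) * p.qw v).re‖ ≤ ‖(p.qw w - 1) * p.qw v‖ := re_le _
  have e7 : ‖(p.qw w - 1) * p.qw v‖ = p.r w := by rw [norm_mul, p.norm_qw, mul_one]; rfl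
  rw [e7] at e6
  linarith

/-! ### the coefficients -/

theorem norm_entry1 (q : Quaternion ℝ) : ‖(q.re : ℂ) + q.imI * I‖ ≤ ‖q‖ ∧ ‖(q.re : ℂ) - q.imI * I‖ ≤ ‖q‖ ∧ 
    ‖(q.imJ : ℂ) + q.imK * I‖ ≤ ‖q‖ ∧ ‖-(q.imJ : ℂ) + q.imK * I‖ ≤ ‖q‖ := by
  have h := Quaternion.normSq_eq_norm_mul_self q
  rw [Quaternion.normSq_def'] at h
  have key : ∀ a b : ℝ, a ^ 2 + b ^ 2 ≤ ‖q‖ * ‖q‖ → ‖(a : ℂ) + b * I‖ ≤ ‖q‖ := by
    intro a b hab
    have h1 : ‖(a : ℂ) + b * I‖ ^ 2 = a ^ 2 + b ^ 2 := by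
      rw [← Complex.normSq_eq_norm_sq, Complex.normSq_add_mul_I]
    have h2 : ‖(a : ℂ) + b * I‖ ^ 2 ≤ ‖q‖ ^ 2 := by rw [h1]; nlinarith
    exact (pow_le_pow_iff_left₀ (norm_nonneg _) (norm_nonneg _) (by norm_num)).1 h2
  refine ⟨key _ _ (by nlinarith [sq_nonneg q.imJ, sq_nonneg q.imK]), ?_, 
    key _ _ (by nlinarith [sq_nonneg q.re, sq_nonneg q.imI]), ?_⟩
  · have := key q.re (-q.imI) (by nlinarith [sq_nonneg q.imJ, sq_nonneg q.imK])
    push_cast at this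
    rwa [neg_mul, ← sub_eq_add_neg] at this
  · have := key (-q.imJ) q.imK (by nlinarith [sq_nonneg q.re, sq_nonneg q.imI])
    push_cast at this
    exact this

theorem Par.coef (p : Par) {A A' : ℂ} (hA : A * A' = 1) (h2 : A ^ 2 = p.C + p.S * I) {w : List (Bool × ℕ)} 
    (hw : ∀ x ∈ w, x.2 + 1 < 3) (hb : ∀ u u' : ℂ, u * u' = 1 → chi u u' w = 1) : 
    p.k ^ 2 * ‖(p.co A A' w).a1‖ ≤ 6 * p.r w ∧ p.k ^ 2 * ‖(p.co A A' w).a2‖ ≤ p.r w ∧
    p.k ^ 2 * ‖(p.co A A' w).a3‖ ≤ 2 * p.r w ∧ p.k ^ 2 * ‖(p.co A A' w).a4‖ ≤ 2 * p.r w := by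
  have hI : I * A' * (-I * A) = 1 := by linear_combination hA - A * A' * I_mul_I
  have h := p.val_co (A := A) (A' := A') w hw
  rw [p.wd_eq hA h2, hb _ _ hI, one_smul] at h
  have a0 : (p.co A A' w).a0 = 1 := by
    unfold Par.co
    rw [run_a0, hb _ _ hA]
    simp [one]
  have hd := p.d_ne
  have hk := p.k_sq'
  obtain ⟨n1, n2, n3, n4⟩ := norm_entry1 (p.qw w - 1)
  simp only [Quaternion.re_sub, Quaternion.imI_sub, Quaternion.imJ_sub, Quaternion.imK_sub, Quaternion.re_one, 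
    Quaternion.imI_one, Quaternion.imJ_one, Quaternion.imK_one, sub_zero] at n1 n2 n3 n4
  have hr : ‖p.qw w - 1‖ = p.r w := rfl
  rw [hr] at n1 n2 n3 n4
  push_cast at n1 n2 n3 n4
  unfold val at h
  rw [a0] at h
  have m00 := congrFun (congrFun h 0) 0
  have m01 := congrFun (congrFun h 0) 1
  have m10 := congrFun (congrFun h 1) 0
  have m11 := congrFun (congrFun h 1) 1
  rw [Qm_apply] at m00 m01 m10 m11
  simp [Par.E, hd] at m00 m01 m10 m11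
  set a1 := (p.co A A' w).a1
  set a2 := (p.co A A' w).a2
  set a3 := (p.co A A' w).a3
  set a4 := (p.co A A' w).a4
  set R := p.r w
  have k0 : 0 ≤ p.k := Real.sqrt_nonneg _
  have k1 : p.k ≤ 1 := by
    have h3 := p.k_sq
    have h4 : 0 < 1 / (4 * p.C ^ 2) := by have := p.pos; positivity
    nlinarith
  have d1 : 1 ≤ ‖(p.d : ℂ)‖ := by
    unfold Par.d
    rw [Complex.norm_real, norm_neg, Real.norm_eq_abs, abs_of_pos (by linarith [p.pos])]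
    linarith [p.hC]
  have nk : ‖(p.k : ℂ)‖ = p.k := by rw [Complex.norm_real, Real.norm_eq_abs, abs_of_nonneg k0]
  have nk2 : ∀ z : ℂ, ‖(p.k : ℂ) ^ 2 * z‖ = p.k ^ 2 * ‖z‖ := fun z => by rw [norm_mul, norm_pow, nk]
  have le_d : ∀ z : ℂ, ‖z‖ ≤ ‖(p.d : ℂ) * z‖ := fun z => by
    rw [norm_mul]
    exact le_mul_of_one_le_left (norm_nonneg _) d1
  have R0 : 0 ≤ R := p.r_nonneg w
  -- the coefficient of `e 1`
  have c2 : p.k ^ 2 * ‖a2‖ ≤ R := by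
    have e : (p.d : ℂ) * ((p.k : ℂ) ^ 2 * a2) = ((p.qw w).re - 1) - (p.qw w).imI * I := by
      rw [hk]
      have : (p.d : ℂ) * ((1 - 1 / (p.d : ℂ) ^ 2) * a2) = a2 * (p.d - (p.d : ℂ)⁻¹) := by
        field_simp
      rw [this]
      linear_combination m11
    rw [← nk2]
    refine (le_d _).trans ?_
    rw [e]
    exact n2
  have c3 : p.k ^ 2 * ‖a3‖ ≤ 2 * R := by
    have e : (p.d : ℂ) * ((p.k : ℂ) ^ 2 * a3) = p.k * ((p.qw w).imJ + (p.qw w).imK * I) - (p.k : ℂ) ^ 2 * a2 := by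
      linear_combination (p.k : ℂ) * m01
    rw [← nk2]
    refine (le_d _).trans ?_
    rw [e]
    refine (norm_sub_le _ _).trans ?_
    rw [nk2, norm_mul, nk]
    have : p.k * ‖((p.qw w).imJ : ℂ) + (p.qw w).imK * I‖ ≤ 1 * R := mul_le_mul k1 n3 (norm_nonneg _) zero_le_one
    linarith
  have c4 : p.k ^ 2 * ‖a4‖ ≤ 2 * R := by
    have e : (p.d : ℂ) * ((p.k : ℂ) ^ 2 * a4) = p.k * (-(p.qw w).imJ + (p.qw w).imK * I) - (p.k : ℂ) ^ 2 * a2 := by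
      linear_combination (p.k : ℂ) * m10
    rw [← nk2]
    refine (le_d _).trans ?_
    rw [e]
    refine (norm_sub_le _ _).trans ?_
    rw [nk2, norm_mul, nk]
    have : p.k * ‖-((p.qw w).imJ : ℂ) + (p.qw w).imK * I‖ ≤ 1 * R := mul_le_mul k1 n4 (norm_nonneg _) zero_le_one
    linarith
  refine ⟨?_, c2, c3, c4⟩
  have e : (p.d : ℂ) * ((p.k : ℂ) ^ 2 * a1) = (p.k : ℂ) ^ 2 * (((p.qw w).re - 1) + (p.qw w).imI * I) - 
      (p.d : ℂ)⁻¹ * ((p.k : ℂ) ^ 2 * a2) - (p.k : ℂ) ^ 2 * a3 - (p.k : ℂ) ^ 2 * a4 := by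
    linear_combination (p.k : ℂ) ^ 2 * m00
  rw [← nk2]
  refine (le_d _).trans ?_
  rw [e]
  have i1 : ‖(p.k : ℂ) ^ 2 * (((p.qw w).re - 1) + (p.qw w).imI * I)‖ ≤ R := by
    rw [nk2]
    have : p.k ^ 2 * ‖((p.qw w).re - 1 : ℂ) + (p.qw w).imI * I‖ ≤ 1 * R := 
      mul_le_mul (by nlinarith) n1 (norm_nonneg _) zero_le_one
    linarith
  have i2 : ‖(p.d : ℂ)⁻¹ * ((p.k : ℂ) ^ 2 * a2)‖ ≤ R := by
    rw [norm_mul, nk2, norm_inv]
    have h5 : ‖(p.d : ℂ)‖⁻¹ ≤ 1 := inv_le_one_of_one_le₀ d1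
    have : ‖(p.d : ℂ)‖⁻¹ * (p.k ^ 2 * ‖a2‖) ≤ 1 * R := mul_le_mul h5 c2 (by positivity) zero_le_one
    linarith
  have i3 : ‖(p.k : ℂ) ^ 2 * a3‖ ≤ 2 * R := by rw [nk2]; exact c3
  have i4 : ‖(p.k : ℂ) ^ 2 * a4‖ ≤ 2 * R := by rw [nk2]; exact c4
  refine (norm_sub_le _ _).trans ?_
  have j1 := norm_sub_le ((p.k : ℂ) ^ 2 * (((p.qw w).re - 1) + (p.qw w).imI * I) - 
      (p.d : ℂ)⁻¹ * ((p.k : ℂ) ^ 2 * a2)) ((p.k : ℂ) ^ 2 * a3)
  have j2 := norm_sub_le ((p.k : ℂ) ^ 2 * (((p.qw w).re - 1) + (p.qw w).imI * I)) 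
      ((p.d : ℂ)⁻¹ * ((p.k : ℂ) ^ 2 * a2))
  linarith

end Pool.Agent.U963.AR
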