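import Pool.Agent.U963.JN.Non

/-!
# The Temperley-Lieb algebra on three strands and the bracket of closed 3-braids
-/

set_option autoImplicit false

namespace Pool.Agent.U963.AR

open Finset LaurentPolynomial Pool.Agent.H891R2.Jones Pool.Agent.W639.RB Pool.Agent.TH561 Pool.Agent.Y463.SK
open Pool.Agent.Y463.MP
open Pool.Agent.U963.JN (isTLr_KK MR_wd)

/-- vectors with 5 entries -/
structure V3 (R : Type*) where
  a0 : R
  a1 : R
  a2 : R
  a3 : R
  a4 : R

/-- the coefficients of `b * (u + u' e_i)`, if `v` are the coefficients of `b` -/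
def stp {R : Type*} [CommRing R] (u u' d : R) (v : V3 R) (i : ℕ) : V3 R :=
  match i with
  | 0 => ⟨u*v.a0, u*v.a1 + u'*(v.a0+d*v.a1+v.a3), u*v.a2, u*v.a3, u*v.a4+u'*(v.a2+d*v.a4)⟩
  | _ => ⟨u*v.a0, u*v.a1, u*v.a2+u'*(v.a0+d*v.a2+v.a4), u*v.a3+u'*(v.a1+d*v.a3), u*v.a4⟩

section
variable {R B : Type*} [CommRing R] [Ring B] [Algebra R B] {d : R} {e : ℕ → B}

/-- the element with the coefficients `v` -/
def val (e : ℕ → B) (v : V3 R) : B :=
  v.a0 • (1 : B) + v.a1 • e 0 + v.a2 • e 1 + v.a3 • (e 0 * e 1) + v.a4 • (e 1 * e 0)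

theorem val_stp (h : IsTLr 3 d e) (u u' : R) (v : V3 R) {i : ℕ} (hi : i + 1 < 3) :
    val e (stp u u' d v i) = val e v * (u • 1 + u' • e i) := by
  have h1 : e 0 * e 0 = d • e 0 := h.sq 0 (by omega)
  have h2 : e 1 * e 1 = d • e 1 := h.sq 1 (by omega)
  have h4 : e 0 * e 1 * e 0 = e 0 := h.up 0 (by omega)
  have h5 : e 1 * e 0 * e 1 = e 1 := h.down 0 (by omega)
  rw [mul_add, mul_smul_comm, mul_smul_comm, mul_one]
  have hi' : i = 0 ∨ i = 1 := by omega
  rcases hi' with rfl | rfl
  · simp only [val, stp]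
    generalize e 0 = a at *
    generalize e 1 = b at *
    have p4 : b*a*a = d•(b*a) := by rw [mul_assoc, h1, mul_smul_comm]
    simp only [add_mul, smul_mul_assoc, one_mul, h1, h4, p4]
    module
  · simp only [val, stp]
    generalize e 0 = a at *
    generalize e 1 = b at *
    have p4 : a*b*b = d•(a*b) := by rw [mul_assoc, h2, mul_smul_comm]
    simp only [add_mul, smul_mul_assoc, one_mul, h2, h5, p4]
    module

/-- the coefficients of `b * w` -/
def run (u u' d : R) : List (Bool × ℕ) → V3 R → V3 R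
  | [], v => v
  | x :: w, v => run u u' d w (if x.1 then stp u u' d v x.2 else stp u' u d v x.2)

theorem val_run {A A' : R} (h : IsTLr 3 d e) (w : List (Bool × ℕ)) : ∀ (v : V3 R), (∀ x ∈ w, x.2 + 1 < 3) →
    val e (run A A' d w v) = val e v * wd A A' e w := by
  induction w with
  | nil => intro v _; simp [run, wd]
  | cons x w ih =>
    intro v hw
    have h1 : wd A A' e (x :: w) = ltr A A' e x * wd A A' e w := by simp [wd]
    have hx := hw x List.mem_cons_self
    rw [run, ih _ (fun y hy => hw y (List.mem_cons_of_mem _ hy)), h1, ← mul_assoc]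
    congr 1
    unfold ltr
    split_ifs
    · exact val_stp h _ _ _ hx
    · exact val_stp h _ _ _ hx

theorem run_append (u u' d : R) (w w' : List (Bool × ℕ)) : ∀ v : V3 R, 
    run u u' d (w ++ w') v = run u u' d w' (run u u' d w v) := by
  induction w with
  | nil => intro v; rfl
  | cons x w ih => intro v; exact ih _

/-- the character -/
def chi (u u' : R) (w : List (Bool × ℕ)) : R := (w.map fun x => if x.1 then u else u').prod

theorem chi_append (u u' : R) (w w' : List (Bool × ℕ)) : chi u u' (w ++ w') = chi u u' w * chi u u' w' := by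
  simp [chi]

theorem chi_inv {u u' : R} (h : u * u' = 1) (w : List (Bool × ℕ)) : chi u u' w * chi u u' (invL w) = 1 := by
  induction w with
  | nil => simp [chi, invL]
  | cons x w ih =>
    have e1 : invL (x :: w) = invL w ++ [(!x.1, x.2)] := by simp [invL]
    have e2 : chi u u' (x :: w) = (if x.1 then u else u') * chi u u' w := by simp [chi]
    have e3 : chi u u' [(!x.1, x.2)] = if x.1 then u' else u := by cases hx : x.1 <;> simp [chi]
    rw [e1, e2, chi_append, e3]
    cases x.1 with
    | true => simp only [if_true]; linear_combination u * u' * ih + h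
    | false => simp only [Bool.false_eq_true, if_false]; linear_combination u * u' * ih + h

theorem chi_com {u u' : R} (h : u * u' = 1) (x y : List (Bool × ℕ)) : 
    chi u u' (Pool.Agent.U963.JN.com x y) = 1 := by
  unfold Pool.Agent.U963.JN.com
  rw [chi_append, chi_append, chi_append]
  have h1 := chi_inv h x
  have h2 := chi_inv h y
  linear_combination (chi u u' y * chi u u' (invL y)) * h1 + h2

theorem stp_a0 (u u' d : R) (v : V3 R) (i : ℕ) : (stp u u' d v i).a0 = u * v.a0 := by
  unfold stp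
  split <;> rfl

theorem run_a0 (u u' d : R) (w : List (Bool × ℕ)) : ∀ v : V3 R, 
    (run u u' d w v).a0 = chi u u' w * v.a0 := by
  induction w with
  | nil => intro v; simp [run, chi]
  | cons x w ih =>
    intro v
    have e2 : chi u u' (x :: w) = (if x.1 then u else u') * chi u u' w := by simp [chi]
    rw [run, ih, e2]
    split_ifs
    · rw [stp_a0]; ring
    · rw [stp_a0]; ring

end

/-- the unit vector -/
def one (R : Type*) [CommRing R] : V3 R := ⟨1, 0, 0, 0, 0⟩

theorem val_one {R B : Type*} [CommRing R] [Ring B] [Algebra R B] (e : ℕ → B) : val e (one R) = 1 := by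
  simp [val, one]

def V3.map {R S : Type*} (f : R → S) (v : V3 R) : V3 S := ⟨f v.a0, f v.a1, f v.a2, f v.a3, f v.a4⟩

theorem map_stp {R S : Type*} [CommRing R] [CommRing S] (f : R →+* S) (u u' d : R) (v : V3 R) (i : ℕ) : 
    (stp u u' d v i).map f = stp (f u) (f u') (f d) (v.map f) i := by
  unfold stp
  split <;> simp [V3.map]

theorem map_run {R S : Type*} [CommRing R] [CommRing S] (f : R →+* S) (u u' d : R) (w : List (Bool × ℕ)) : 
    ∀ v : V3 R, (run u u' d w v).map f = run (f u) (f u') (f d) w (v.map f) := by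
  induction w with
  | nil => intro v; rfl
  | cons x w ih =>
    intro v
    rw [run, ih, run]
    congr 1
    split_ifs
    · exact map_stp f _ _ _ _ _
    · exact map_stp f _ _ _ _ _

theorem map_one' {R S : Type*} [CommRing R] [CommRing S] (f : R →+* S) : (one R).map f = one S := by
  simp [one, V3.map]

/-! ### the closure -/

/-- the trace in the two-dimensional representation -/
def tr2 {R : Type*} [CommRing R] (d : R) (v : V3 R) : R := 2 * v.a0 + d * (v.a1 + v.a2) + v.a3 + v.a4

/-- the closure functional -/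
def tau {R : Type*} [CommRing R] (d : R) (v : V3 R) : R := (d^2 - 2) * v.a0 + tr2 d v

theorem tau_map {R S : Type*} [CommRing R] [CommRing S] (f : R →+* S) (d : R) (v : V3 R) : 
    f (tau d v) = tau (f d) (v.map f) := by
  simp [tau, tr2, V3.map, map_ofNat]

variable {N : ℕ}

theorem tr1 : Matrix.trace (1 : Matrix (Fin 3 → Fin N) (Fin 3 → Fin N) ℂ) = (N : ℂ)^3 := by
  rw [Matrix.trace_one]; simp

theorem trv (hN : N ≠ 0) (v : V3 ℂ) : Matrix.trace (val (KK 3 N) v) = N * tau (N : ℂ) v := by
  have hN' : (N : ℂ) ≠ 0 := by exact_mod_cast hN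
  have m0 := markov (m := 3) hN 0 [] (by omega) (by simp)
  have m1 := markov (m := 3) hN 1 [] (by omega) (by simp)
  have m01 := markov (m := 3) hN 1 [0] (by omega) (by simp)
  simp only [WP_cons, WP_nil, one_mul, mul_one] at m0 m1 m01
  rw [tr1] at m0 m1
  have t0 : Matrix.trace (KK 3 N 0) = (N : ℂ)^2 := mul_left_cancel₀ hN' (by rw [m0]; ring)
  have t1 : Matrix.trace (KK 3 N 1) = (N : ℂ)^2 := mul_left_cancel₀ hN' (by rw [m1]; ring)
  rw [t0] at m01
  have t01 : Matrix.trace (KK 3 N 0 * KK 3 N 1) = (N : ℂ) := mul_left_cancel₀ hN' (by rw [m01]; ring)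
  have t10 : Matrix.trace (KK 3 N 1 * KK 3 N 0) = (N : ℂ) := by rw [Matrix.trace_mul_comm, t01]
  unfold val
  simp only [Matrix.trace_add, Matrix.trace_smul, t0, t1, t01, t10, tr1, smul_eq_mul]
  unfold tau tr2
  ring

theorem dl_ne : (dl : ℤ[T;T⁻¹]) ≠ 0 := Pool.Agent.U963.JN.dl_ne

theorem bracket_clo (W : List (Bool × ℕ)) (hW : ∀ x ∈ W, x.2 + 1 < 3) :
    (draw (braidClosure 3) W).close.bracket = tau dl (run (T 1) (T (-1)) dl W (one _)) := by
  apply mul_left_cancel₀ dl_ne
  apply eq_of_ev
  intro N hN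
  have hN0 : N ≠ 0 := by omega
  rw [Pool.Agent.N569.TW.ev_bracket_trace (by omega) W hW N hN, MR_wd, map_mul, tau_map, map_run, ev_dl]
  have h1 : (one ℤ[T;T⁻¹]).map (ev N hN) = one ℂ := map_one' _
  have h2 := val_run (A := Ar N) (A' := (Ar N)⁻¹) (isTLr_KK 3 N) W (one ℂ) hW
  rw [val_one, one_mul] at h2
  rw [h1, ← h2, trv hN0, ev_T, ev_T]
  simp

end Pool.Agent.U963.AR
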