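import Pool.Agent.U963.AR.Ev

/-!
# Insertion of the words into link diagrams
-/

set_option autoImplicit false

namespace Pool.Agent.U963.AR

open LaurentPolynomial Complex Pool.Agent.H891R2.Jones Pool.Agent.W639.RB Pool.Agent.Y463.SK Pool.Agent.Y463.MP
open Pool.Agent.TH561 (dl)
open Pool.Agent.U963.JN (un fPoly_eq)

/-- the element of the Temperley-Lieb algebra -/
noncomputable def wZ (w : List (Bool × ℕ)) : TLZ 3 := wd (T 1 : ℤ[T;T⁻¹]) (T (-1)) (EZ 3) w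

theorem wZ_append (w w' : List (Bool × ℕ)) : wZ (w ++ w') = wZ w * wZ w' := wd_append _ _ _ _ _

theorem wZ_val (w : List (Bool × ℕ)) (hw : ∀ x ∈ w, x.2 + 1 < 3) : 
    wZ w = val (EZ 3) (run (T 1) (T (-1)) dl w (one ℤ[T;T⁻¹])) := by
  have h := val_run (A := (T 1 : ℤ[T;T⁻¹])) (A' := T (-1)) (isTL_EZ 3) w (one _) hw
  rw [val_one, one_mul, ← Pool.Agent.U963.JN.dl_eq] at h
  exact h.symm

theorem bracket_draw (W : List (Bool × ℕ)) : ∀ O : Outer 3, (∀ x ∈ W, x.2 + 1 < 3) → 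
    (draw O W).close.bracket = PhiS (by omega) O (wZ W) := by
  have hm : 0 < 3 := by omega
  have key : ∀ (W : List (Bool × ℕ)) (O : Outer 3) (b : TLZ 3), (∀ x ∈ W, x.2 + 1 < 3) → 
      PhiS hm (draw O W) b = PhiS hm O (wZ W * b) := by
    intro W
    induction W with
    | nil => intro O b _; show PhiS hm O b = PhiS hm O (1 * b); rw [one_mul]
    | cons x W ih =>
      intro O b hW
      have hx := hW x List.mem_cons_self
      have h1 : draw O (x :: W) = draw (O.push x.1 x.2) W := rfl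
      have h2 : wZ (x :: W) = sZ 3 x * wZ W := by simp [wZ, wd, sZ]
      rw [h1, ih _ _ (fun y hy => hW y (List.mem_cons_of_mem _ hy))]
      have h3 := PhiS_push hm O ((x.1, ⟨x.2, by omega⟩) : Letter 3) (wZ W * b)
      have h4 : ((((x.1, ⟨x.2, by omega⟩) : Letter 3).2 : Fin (3 - 1)) : ℕ) = x.2 := rfl
      rw [h4] at h3
      rw [h3, h2, mul_assoc]
  intro O hW
  rw [← PhiS_one hm, key W O 1 hW, mul_one]

theorem writhe_draw {W V : List (Bool × ℕ)} (hW : ∀ x ∈ W, x.2 + 1 < 3) (hV : ∀ x ∈ V, x.2 + 1 < 3)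
    (hc : ∀ U, costS W U = 0) (hp : permL W = 1) (O : Outer 3) : 
    (draw O (W ++ V)).close.writhe = (draw O V).close.writhe := by
  have hWV : ∀ x ∈ W ++ V, x.2 + 1 < 3 := by
    intro x hx
    rcases List.mem_append.1 hx with hx | hx
    · exact hW x hx
    · exact hV x hx
  rw [close_writhe, close_writhe, (draw_writhe _ O hWV).1, (draw_writhe _ O hV).1, costS_append, hc, hp]
  have : pat O.up ∘ ⇑(1 : Equiv.Perm ℕ) = pat O.up := rfl
  rw [this, zero_add]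

theorem evc_val (φ : ℝ) (O : Outer 3) (v : V3 ℤ[T;T⁻¹]) (b : TLZ 3) : 
    evc φ (PhiS (by omega) O (val (EZ 3) v * b)) = 
      (v.map (evc φ)).a0 * evc φ (PhiS (by omega) O b) + 
      (v.map (evc φ)).a1 * evc φ (PhiS (by omega) O (EZ 3 0 * b)) + 
      (v.map (evc φ)).a2 * evc φ (PhiS (by omega) O (EZ 3 1 * b)) + 
      (v.map (evc φ)).a3 * evc φ (PhiS (by omega) O (EZ 3 0 * EZ 3 1 * b)) + 
      (v.map (evc φ)).a4 * evc φ (PhiS (by omega) O (EZ 3 1 * EZ 3 0 * b)) := by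
  unfold val V3.map
  simp only [add_mul, smul_mul_assoc, one_mul, map_add, map_smul, smul_eq_mul, map_mul]

/-- **The local statement.** -/
theorem local_close (O : Outer 3) (v : List (Bool × ℕ)) (hv : ∀ x ∈ v, x.2 + 1 < 3) : 
    ∃ K : ℝ, 0 ≤ K ∧ ∀ (k : ℕ) (w : List (Bool × ℕ)), Fw k w → ∀ (φ : ℝ) (h : |φ| ≤ Real.pi / 6), 
      (par φ h).k ^ 2 * ‖evc φ (draw O (w ++ v)).close.fPoly - evc φ (draw O v).close.fPoly‖ ≤ K * (par φ h).r w := by
  obtain ⟨K1, n1, h1⟩ := evc_bdd (PhiS (by omega) O (EZ 3 0 * wZ v))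
  obtain ⟨K2, n2, h2⟩ := evc_bdd (PhiS (by omega) O (EZ 3 1 * wZ v))
  obtain ⟨K3, n3, h3⟩ := evc_bdd (PhiS (by omega) O (EZ 3 0 * EZ 3 1 * wZ v))
  obtain ⟨K4, n4, h4⟩ := evc_bdd (PhiS (by omega) O (EZ 3 1 * EZ 3 0 * wZ v))
  refine ⟨6 * K1 + K2 + 2 * K3 + 2 * K4, by positivity, fun k w hw φ h => ?_⟩
  have hwv : ∀ x ∈ w ++ v, x.2 + 1 < 3 := by
    intro x hx
    rcases List.mem_append.1 hx with hx | hx
    · exact hw.lt x hx
    · exact hv x hx
  rw [fPoly_eq, fPoly_eq, writhe_draw hw.lt hv hw.cost hw.pure, map_mul, map_mul, ← mul_sub, norm_mul, norm_un, one_mul,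
    bracket_draw _ O hwv, bracket_draw _ O hv, wZ_append, wZ_val w hw.lt, evc_val, map_run_evc φ h]
  set p := par φ h
  have g2 : evc φ (T 1) ^ 2 = p.C + p.S * I := circ_sq φ
  have hA := circ_mul φ
  have a0 : (p.co (evc φ (T 1)) (evc φ (T (-1))) w).a0 = 1 := by
    unfold Par.co
    rw [run_a0, hw.bal _ _ hA]
    simp [one]
  obtain ⟨c1, c2, c3, c4⟩ := p.coef hA g2 hw.lt hw.bal
  rw [a0, one_mul]
  generalize (p.co (evc φ (T 1)) (evc φ (T (-1))) w).a1 = a1 at *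
  generalize (p.co (evc φ (T 1)) (evc φ (T (-1))) w).a2 = a2 at *
  generalize (p.co (evc φ (T 1)) (evc φ (T (-1))) w).a3 = a3 at *
  generalize (p.co (evc φ (T 1)) (evc φ (T (-1))) w).a4 = a4 at *
  have q1 := h1 φ
  have q2 := h2 φ
  have q3 := h3 φ
  have q4 := h4 φ
  generalize evc φ (PhiS (by omega) O (EZ 3 0 * wZ v)) = x1 at *
  generalize evc φ (PhiS (by omega) O (EZ 3 1 * wZ v)) = x2 at *
  generalize evc φ (PhiS (by omega) O (EZ 3 0 * EZ 3 1 * wZ v)) = x3 at *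
  generalize evc φ (PhiS (by omega) O (EZ 3 1 * EZ 3 0 * wZ v)) = x4 at *
  generalize evc φ (PhiS (by omega) O (wZ v)) = x0 at *
  have e : x0 + a1 * x1 + a2 * x2 + a3 * x3 + a4 * x4 - x0 = a1 * x1 + a2 * x2 + a3 * x3 + a4 * x4 := by ring
  rw [e]
  have R0 : 0 ≤ p.r w := p.r_nonneg w
  have k0 : 0 ≤ p.k ^ 2 := sq_nonneg _
  have tri : ‖a1 * x1 + a2 * x2 + a3 * x3 + a4 * x4‖ ≤ ‖a1‖ * ‖x1‖ + ‖a2‖ * ‖x2‖ + ‖a3‖ * ‖x3‖ + ‖a4‖ * ‖x4‖ := by
    refine (norm_add_le _ _).trans ?_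
    rw [norm_mul a4]
    refine add_le_add ((norm_add_le _ _).trans ?_) le_rfl
    rw [norm_mul a3]
    refine add_le_add ((norm_add_le _ _).trans ?_) le_rfl
    rw [norm_mul, norm_mul]
  have m1 : p.k ^ 2 * ‖a1‖ * ‖x1‖ ≤ 6 * p.r w * K1 := mul_le_mul c1 q1 (norm_nonneg _) (by positivity)
  have m2 : p.k ^ 2 * ‖a2‖ * ‖x2‖ ≤ p.r w * K2 := mul_le_mul c2 q2 (norm_nonneg _) (by positivity)
  have m3 : p.k ^ 2 * ‖a3‖ * ‖x3‖ ≤ 2 * p.r w * K3 := mul_le_mul c3 q3 (norm_nonneg _) (by positivity)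
  have m4 : p.k ^ 2 * ‖a4‖ * ‖x4‖ ≤ 2 * p.r w * K4 := mul_le_mul c4 q4 (norm_nonneg _) (by positivity)
  calc p.k ^ 2 * ‖a1 * x1 + a2 * x2 + a3 * x3 + a4 * x4‖ 
      ≤ p.k ^ 2 * (‖a1‖ * ‖x1‖ + ‖a2‖ * ‖x2‖ + ‖a3‖ * ‖x3‖ + ‖a4‖ * ‖x4‖) := mul_le_mul_of_nonneg_left tri k0
    _ = p.k ^ 2 * ‖a1‖ * ‖x1‖ + p.k ^ 2 * ‖a2‖ * ‖x2‖ + p.k ^ 2 * ‖a3‖ * ‖x3‖ + p.k ^ 2 * ‖a4‖ * ‖x4‖ := by ring
    _ ≤ (6 * K1 + K2 + 2 * K3 + 2 * K4) * p.r w := by linarith

theorem Fw.two_r {k : ℕ} {w : List (Bool × ℕ)} (hw : Fw k w) (p : Par) : 2 * p.r w ≤ (8 / 9) ^ (3 * 2 ^ k) := by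
  have h := hw.close p
  have h1 : (2 * p.r w) ^ 2 ≤ ((8 / 9 : ℝ) ^ (3 * 2 ^ k)) ^ 2 := by
    have e : (((8 : ℝ) / 9) ^ 3) ^ (2 ^ (k + 1)) = ((8 / 9 : ℝ) ^ (3 * 2 ^ k)) ^ 2 := by
      rw [← pow_mul, ← pow_mul, pow_succ]
      congr 1
      ring
    rw [← e]
    linarith
  exact (pow_le_pow_iff_left₀ (by have := p.r_nonneg w; positivity) (by positivity) (by norm_num)).1 h1

/-! ### the closures -/

theorem tl_lt : ∀ x ∈ tl, x.2 + 1 < 3 := by decide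

theorem un_two : un 2 = T (-6) := by
  unfold un
  rw [if_pos (by decide), one_mul]
  norm_num

theorem writhe_tl : (draw (braidClosure 3) tl).close.writhe = 2 := by
  rw [close_writhe, (draw_writhe _ _ tl_lt).1]
  decide

theorem bracket_tl : (draw (braidClosure 3) tl).close.bracket = T 6 := by
  rw [bracket_clo tl tl_lt]
  have e : (T (-1) : ℤ[T;T⁻¹]) * T 1 = 1 := by rw [← T_add]; simp
  have e6 : (T 6 : ℤ[T;T⁻¹]) = T 1 ^ 6 := by rw [T_pow]; norm_num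
  rw [e6, Pool.Agent.U963.JN.dl_eq]
  unfold tl tau tr2
  simp only [run, one, stp, if_true]
  generalize (T 1 : ℤ[T;T⁻¹]) = A at *
  generalize (T (-1) : ℤ[T;T⁻¹]) = B at *
  linear_combination (2 * A ^ 3 * B + B ^ 2 * (A * B - 1)) * e

theorem fPoly_tl : (draw (braidClosure 3) tl).close.fPoly = 1 := by
  rw [fPoly_eq, writhe_tl, bracket_tl, un_two, ← T_add]
  simp

theorem fPoly_close {k : ℕ} {w : List (Bool × ℕ)} (hw : Fw k w) (φ : ℝ) (h : |φ| ≤ Real.pi / 6) : 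
    ‖evc φ (draw (braidClosure 3) (w ++ tl)).close.fPoly - 1‖ ≤ (8 / 9) ^ (3 * 2 ^ k) := by
  have h1 : (1 : ℂ) = evc φ (draw (braidClosure 3) tl).close.fPoly := by rw [fPoly_tl, map_one]
  rw [h1, fPoly_eq, fPoly_eq, writhe_draw hw.lt tl_lt hw.cost hw.pure, map_mul, map_mul, ← mul_sub, norm_mul, 
    norm_un, one_mul]
  exact (evc_clo φ h hw tl tl_lt).trans (hw.two_r _)

/-- **The closures are not trivial.** -/
theorem fPoly_ne {k : ℕ} {w : List (Bool × ℕ)} (hw : Fw k w) : 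
    (draw (braidClosure 3) (w ++ tl)).close.fPoly ≠ 1 := by
  intro h0
  have hwv : ∀ x ∈ w ++ tl, x.2 + 1 < 3 := by
    intro x hx
    rcases List.mem_append.1 hx with hx | hx
    · exact hw.lt x hx
    · exact tl_lt x hx
  rw [← fPoly_tl, fPoly_eq, fPoly_eq, writhe_draw hw.lt tl_lt hw.cost hw.pure, writhe_tl, un_two] at h0
  have h1 : (draw (braidClosure 3) (w ++ tl)).close.bracket = (draw (braidClosure 3) tl).close.bracket := by
    have := congrArg (T 6 * ·) h0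
    simp only [← mul_assoc, ← T_add] at this
    simpa using this
  rw [bracket_clo _ hwv, bracket_clo _ tl_lt] at h1
  have h2 := congrArg (evc (Real.pi / 4)) h1
  rw [tau_map, tau_map, map_run, map_run, map_one'] at h2
  have e2 : (evc (Real.pi / 4) (T 1)) ^ 2 = I := by
    rw [circ_sq]
    have : 2 * (Real.pi / 4) = Real.pi / 2 := by ring
    rw [this, Real.cos_pi_div_two, Real.sin_pi_div_two]
    simp
  have e3 : (evc (Real.pi / 4) (T (-1))) ^ 2 = -I := by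
    rw [circ_sq']
    have : 2 * (Real.pi / 4) = Real.pi / 2 := by ring
    rw [this, Real.cos_pi_div_two, Real.sin_pi_div_two]
    simp
  have e4 : evc (Real.pi / 4) dl = 0 := by
    rw [Pool.Agent.U963.JN.dl_eq, map_sub, map_neg, map_pow, map_pow, e2, e3]
    ring
  rw [e4, tau_z (circ_mul _) e2 _ hwv, tau_z (circ_mul _) e2 _ tl_lt, chi_append, hw.bal _ _ (circ_mul _), one_mul] at h2
  have e5 : chi (evc (Real.pi / 4) (T 1)) (evc (Real.pi / 4) (T (-1))) tl = I := by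
    simp only [chi, tl, List.map, if_true, List.prod_cons, List.prod_nil, mul_one]
    rw [← e2]
    ring
  rw [e5, sz_append] at h2
  have h3 := mul_left_cancel₀ I_ne_zero h2
  have h4 : (sz w * sz tl).trace - 2 = (sz tl).trace - 2 := by exact_mod_cast h3
  have h5 : (sz tl).trace = 1 := by simp [sz, tl, s2, Matrix.trace_fin_two]
  exact hw.non (by linarith)

end Pool.Agent.U963.AR
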