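import Pool.Agent.U963.AR.Ev

/-!
# An integral Laurent polynomial is not small on the whole circle
-/

set_option autoImplicit false

namespace Pool.Agent.U963.AR

open LaurentPolynomial Complex Finset

theorem evc_T' (N : ℕ) (j : ℕ) (n : ℤ) : 
    evc (2 * Real.pi * j / N) (T n) = Complex.exp (2 * Real.pi * I * n / N) ^ j := by
  rw [evc_T, Circle.coe_exp, ← Complex.exp_int_mul, ← Complex.exp_nat_mul]
  congr 1
  push_cast
  ring

theorem geom (N : ℕ) (n : ℤ) (h0 : n ≠ 0) (hN : n.natAbs < N) : 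
    ∑ j ∈ range N, Complex.exp (2 * Real.pi * I * n / N) ^ j = 0 := by
  have hN0 : (N : ℂ) ≠ 0 := by
    have : N ≠ 0 := by omega
    exact_mod_cast this
  have h1 : Complex.exp (2 * Real.pi * I * n / N) ≠ 1 := by
    intro h
    rw [Complex.exp_eq_one_iff] at h
    obtain ⟨k, hk⟩ := h
    have hp : (2 * Real.pi * I : ℂ) ≠ 0 := Complex.two_pi_I_ne_zero
    have h2 : (n : ℂ) = k * N := by
      have : (2 * Real.pi * I : ℂ) * n = (2 * Real.pi * I) * (k * N) := by
        field_simp at hk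
        linear_combination (2 * Real.pi * I) * hk
      exact mul_left_cancel₀ hp this
    have h3 : n = k * N := by exact_mod_cast h2
    have h4 : n.natAbs = k.natAbs * N := by rw [h3, Int.natAbs_mul, Int.natAbs_natCast]
    have h5 : k.natAbs ≠ 0 := by
      intro h
      rw [h, zero_mul] at h4
      omega
    have : N ≤ k.natAbs * N := Nat.le_mul_of_pos_left _ (by omega)
    omega
  have h2 := mul_neg_geom_sum (Complex.exp (2 * Real.pi * I * n / N)) N
  have h3 : Complex.exp (2 * Real.pi * I * n / N) ^ N = 1 := by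
    rw [← Complex.exp_nat_mul]
    have : (N : ℂ) * (2 * Real.pi * I * n / N) = n * (2 * Real.pi * I) := by
      field_simp
    rw [this, Complex.exp_int_mul_two_pi_mul_I]
  rw [h3, sub_self] at h2
  exact (mul_eq_zero.1 h2).resolve_left (sub_ne_zero.2 (Ne.symm h1))

theorem fourier (f : ℤ[T;T⁻¹]) (m : ℤ) : ∃ N₀ : ℕ, ∀ N : ℕ, N₀ ≤ N → 
    ∑ j ∈ range N, evc (2 * Real.pi * j / N) f * evc (2 * Real.pi * j / N) (T (-m)) = N * ((f.coeff m : ℤ) : ℂ) := by
  induction f using LaurentPolynomial.induction_on' with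
  | add p q hp hq =>
    obtain ⟨K, hK⟩ := hp
    obtain ⟨L, hL⟩ := hq
    refine ⟨max K L, fun N hN => ?_⟩
    have h1 := hK N (le_trans (le_max_left _ _) hN)
    have h2 := hL N (le_trans (le_max_right _ _) hN)
    have e : (p + q).coeff m = p.coeff m + q.coeff m := rfl
    rw [e]
    push_cast
    rw [mul_add, ← h1, ← h2, ← Finset.sum_add_distrib]
    refine Finset.sum_congr rfl fun j _ => ?_
    rw [map_add, add_mul]
  | C_mul_T n a =>
    refine ⟨(n - m).natAbs + 1, fun N hN => ?_⟩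
    have e1 : ∀ j ∈ range N, evc (2 * Real.pi * j / N) (C a * T n) * evc (2 * Real.pi * j / N) (T (-m)) = 
        a * Complex.exp (2 * Real.pi * I * ((n - m : ℤ) : ℂ) / N) ^ j := by
      intro j _
      rw [map_mul, evc_C, mul_assoc, ← map_mul, ← T_add, ← sub_eq_add_neg, evc_T']
    rw [Finset.sum_congr rfl e1, ← Finset.mul_sum]
    by_cases h : n = m
    · subst h
      have e2 : (C a * T n : ℤ[T;T⁻¹]).coeff n = a := by
        rw [← single_eq_C_mul_T]
        exact Finsupp.single_eq_same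
      rw [e2]
      simp
      ring
    · have e2 : (C a * T n : ℤ[T;T⁻¹]).coeff m = 0 := by
        rw [← single_eq_C_mul_T]
        exact Finsupp.single_eq_of_ne (Ne.symm h)
      rw [e2, geom N (n - m) (sub_ne_zero.2 h) (by omega)]
      simp

/-- **Sharpness.** -/
theorem sharp (f : ℤ[T;T⁻¹]) (h : f ≠ 0) : ∃ φ : ℝ, 1 ≤ ‖evc φ f‖ := by
  by_contra hc
  push Not at hc
  obtain ⟨m, hm⟩ : ∃ m, f.coeff m ≠ 0 := by
    by_contra h0
    push Not at h0
    exact h (LaurentPolynomial.ext fun a => by rw [h0]; rfl)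
  obtain ⟨N₀, hN⟩ := fourier f m
  have h1 := hN (N₀ + 1) (by omega)
  have h2 : ‖∑ j ∈ range (N₀ + 1), evc (2 * Real.pi * j / (N₀ + 1 : ℕ)) f * 
      evc (2 * Real.pi * j / (N₀ + 1 : ℕ)) (T (-m))‖ < N₀ + 1 := by
    calc _ ≤ ∑ j ∈ range (N₀ + 1), ‖evc (2 * Real.pi * j / (N₀ + 1 : ℕ)) f * 
          evc (2 * Real.pi * j / (N₀ + 1 : ℕ)) (T (-m))‖ := norm_sum_le _ _
      _ < ∑ j ∈ range (N₀ + 1), (1 : ℝ) := by
          apply Finset.sum_lt_sum_of_nonempty (Finset.nonempty_range_iff.2 (by omega))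
          intro j _
          rw [norm_mul, norm_evc_T, mul_one]
          exact hc _
      _ = N₀ + 1 := by simp
  rw [h1, norm_mul] at h2
  have h3 : (1 : ℝ) ≤ ‖((f.coeff m : ℤ) : ℂ)‖ := by
    rw [Complex.norm_intCast]
    exact_mod_cast Int.one_le_abs hm
  have h4 : ‖((N₀ + 1 : ℕ) : ℂ)‖ = (N₀ + 1 : ℝ) := by
    rw [Complex.norm_natCast]
    push_cast
    rfl
  rw [h4] at h2
  have h5 : (0 : ℝ) < N₀ + 1 := by positivity
  nlinarith

end Pool.Agent.U963.AR
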