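import Pool.Agent.U963.AR.Vas3
import Pool.Agent.U963.AR.Sharp
import Pool.Agent.U963.AR.Defs

/-!
# The main theorem
-/

set_option autoImplicit false

namespace Pool.Agent.U963.AR

open Finset LaurentPolynomial Pool.Agent.H891R2.Jones Pool.Agent.W639.RB Pool.Agent.Y463.SK Pool.Agent.Y463.MP
open Pool.Agent.H835R2.Knot (Word Front IsKnot IsInvariant DegreeLE circle)
open Pool.Agent.U963.JN (shift shift_zero)
open Pool.Agent.U963.LN (births deaths clo)

theorem value_eq (φ : ℝ) : value φ = evc φ := rfl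

theorem exists_toN (W : List (Bool × ℕ)) (h : ∀ x ∈ W, x.2 + 1 < 3) : ∃ w : List (Letter 3), toN w = W := by
  induction W with
  | nil => exact ⟨[], rfl⟩
  | cons x W ih =>
    obtain ⟨w, hw⟩ := ih (fun y hy => h y (List.mem_cons_of_mem _ hy))
    refine ⟨(x.1, ⟨x.2, by have := h x List.mem_cons_self; omega⟩) :: w, ?_⟩
    show _ :: toN w = _
    rw [hw]

theorem toN_tail : toN tail = tl := rfl

theorem toN_lt (w : List (Letter 3)) : ∀ x ∈ toN w, x.2 + 1 < 3 := by
  intro x hx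
  obtain ⟨y, _, rfl⟩ := List.mem_map.1 hx
  have := y.2.2
  show (y.2 : ℕ) + 1 < 3
  omega

theorem pure_of {w : List (Letter 3)} (h : permL (toN w) = 1) : IsPure w := by
  apply Equiv.ext
  intro i
  apply Fin.ext
  rw [← (permL_toN w).1 i, h]
  rfl

theorem strip_eq (j : ℕ) (w : List (Letter 3)) : strip j w = Pool.Agent.Y466.FT.draw (shift j (toN w)) := by
  unfold strip Pool.Agent.Y466.FT.draw shift toN
  rw [List.map_map, List.map_map]
  rfl

theorem closure_eq (w : List (Letter 3)) : closure w = clo 3 (toN w) := by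
  unfold closure Pool.Agent.U963.LN.clo
  rw [strip_eq, shift_zero]
  rfl

theorem toN_append (w v : List (Letter 3)) : toN (w ++ v) = toN w ++ toN v := by simp [toN]

theorem dia_eq (O : Outer 3) (w : List (Letter 3)) : (dia O w).fPoly = (draw O (toN w)).close.fPoly := rfl

theorem k_bound {φ φ₀ : ℝ} (h0 : φ₀ < Real.pi / 6) (h1 : |φ| ≤ φ₀) (h : |φ| ≤ Real.pi / 6) : 
    1 - 1 / (4 * Real.cos (2 * φ₀) ^ 2) ≤ (par φ h).k ^ 2 ∧ 0 < 1 - 1 / (4 * Real.cos (2 * φ₀) ^ 2) := by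
  have hφ : 0 ≤ φ₀ := (abs_nonneg _).trans h1
  have c0 : 1 / 2 < Real.cos (2 * φ₀) := by
    rw [← Real.cos_pi_div_three]
    apply Real.cos_lt_cos_of_nonneg_of_le_pi (by linarith) (by linarith [Real.pi_pos])
    linarith
  have c1 : Real.cos (2 * φ₀) ≤ (par φ h).C := by
    show Real.cos (2 * φ₀) ≤ Real.cos (2 * φ)
    rw [← Real.cos_abs (2 * φ), abs_mul, abs_two]
    apply Real.cos_le_cos_of_nonneg_of_le_pi (by positivity) (by linarith [Real.pi_pos])
    linarith
  have p0 : 0 < 4 * Real.cos (2 * φ₀) ^ 2 := by positivity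
  refine ⟨?_, ?_⟩
  · rw [(par φ h).k_sq]
    have : 1 / (4 * (par φ h).C ^ 2) ≤ 1 / (4 * Real.cos (2 * φ₀) ^ 2) := by
      apply one_div_le_one_div_of_le p0
      nlinarith
    linarith
  · have : 1 / (4 * Real.cos (2 * φ₀) ^ 2) < 1 := by
      rw [div_lt_one p0]
      nlinarith
    linarith

theorem exists_words : ∃ W : ℕ → List (Letter 3), 
    (∀ k, IsPure (W k) ∧ (W k).length ≤ 160 * 4 ^ k ∧ InvisibleVas (2 ^ (k + 1) - 1) (W k) ∧ 
      IsKnot (closure (W k ++ tail)) ∧ 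
      (∀ (G : Type) [AddCommGroup G] (v : Word → G), IsInvariant v → DegreeLE (2 ^ (k + 1) - 1) v → 
        v (closure (W k ++ tail)) = v circle) ∧
      (dia (braidClosure 3) (W k ++ tail)).fPoly ≠ 1 ∧
      ∀ φ : ℝ, |φ| ≤ Real.pi / 6 → 
        ‖value φ (dia (braidClosure 3) (W k ++ tail)).fPoly - 1‖ ≤ (8 / 9) ^ (3 * 2 ^ k)) ∧ 
    ∀ (O : Outer 3) (v : List (Letter 3)) (φ₀ : ℝ), φ₀ < Real.pi / 6 → ∃ C : ℝ, ∀ (k : ℕ) (φ : ℝ), |φ| ≤ φ₀ → 
      ‖value φ (dia O (W k ++ v)).fPoly - value φ (dia O v).fPoly‖ ≤ C * (8 / 9) ^ (3 * 2 ^ k) := by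
  choose w hw using fw_exists
  choose W hW using fun k => exists_toN (w k) (hw k).lt
  have hF : ∀ k, Fw k (toN (W k)) := fun k => by rw [hW]; exact hw k
  refine ⟨W, fun k => ⟨pure_of (hF k).pure, ?_, ?_, ?_, ?_, ?_, ?_⟩, ?_⟩
  · have h := (hF k).len
    unfold toN at h
    rwa [List.length_map] at h
  · intro x y j hj hk
    rw [strip_eq]
    have hd : ∀ d, d ≤ 2 ^ (k + 1) - 1 → d < 2 ^ (k + 1) := fun d h => by
      have : 0 < 2 ^ (k + 1) := by positivity
      omega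
    exact ⟨(knot_insert x y j hj (hF k)).2 hk, 
      fun G _ v hv hdv => insert_eq hv hdv x y j hj (hF k) (hd _ le_rfl) hk⟩
  · rw [closure_eq, toN_append, toN_tail]
    exact knot_clo (hF k)
  · intro G _ v hv hdv
    rw [closure_eq, toN_append, toN_tail]
    exact vas_clo hv hdv (hF k) (by have : 0 < 2 ^ (k + 1) := by positivity
                                    omega)
  · rw [dia_eq, toN_append, toN_tail]
    exact fPoly_ne (hF k)
  · intro φ h
    rw [dia_eq, toN_append, toN_tail, value_eq]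
    exact fPoly_close (hF k) φ h
  · intro O v φ₀ h0
    obtain ⟨K, hK, hK2⟩ := local_close O (toN v) (toN_lt v)
    refine ⟨K / (1 - 1 / (4 * Real.cos (2 * φ₀) ^ 2)), fun k φ h1 => ?_⟩
    have h : |φ| ≤ Real.pi / 6 := h1.trans h0.le
    obtain ⟨b1, b2⟩ := k_bound h0 h1 h
    have h2 := hK2 k _ (hF k) φ h
    have h3 := (hF k).two_r (par φ h)
    have h4 := (par φ h).r_nonneg (toN (W k))
    rw [dia_eq, dia_eq, toN_append, value_eq]
    set κ := 1 - 1 / (4 * Real.cos (2 * φ₀) ^ 2)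
    set D := ‖evc φ (draw O (toN (W k) ++ toN v)).close.fPoly - evc φ (draw O (toN v)).close.fPoly‖
    have D0 : 0 ≤ D := norm_nonneg _
    have h5 : κ * D ≤ K * (8 / 9) ^ (3 * 2 ^ k) := by
      calc κ * D ≤ (par φ h).k ^ 2 * D := mul_le_mul_of_nonneg_right b1 D0
        _ ≤ K * (par φ h).r (toN (W k)) := h2
        _ ≤ K * (8 / 9) ^ (3 * 2 ^ k) := mul_le_mul_of_nonneg_left (by linarith) hK
    rw [div_mul_eq_mul_div, le_div_iff₀ b2]
    linarith

end Pool.Agent.U963.AR
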