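import Pool.Agent.U963.AR.Lin3

/-!
# The representation at `t = -1`, with values in `SL_2(ℤ)`
-/

set_option autoImplicit false

namespace Pool.Agent.U963.AR

open Pool.Agent.Y463.SK
open Pool.Agent.U963.JN (com)

/-- the matrices of the letters -/
def s2 (x : Bool × ℕ) : Matrix (Fin 2) (Fin 2) ℤ := 
  if x.2 = 0 then (if x.1 then !![1, 1; 0, 1] else !![1, -1; 0, 1]) else 
    (if x.1 then !![1, 0; -1, 1] else !![1, 0; 1, 1])

/-- the matrix of a word -/
def sz (w : List (Bool × ℕ)) : Matrix (Fin 2) (Fin 2) ℤ := (w.map s2).prod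

theorem sz_append (w w' : List (Bool × ℕ)) : sz (w ++ w') = sz w * sz w' := by simp [sz]

theorem s2_mul (x : Bool × ℕ) : s2 x * s2 (!x.1, x.2) = 1 := by
  obtain ⟨b, i⟩ := x
  unfold s2
  cases b <;> by_cases h : i = 0 <;> simp [h, Matrix.one_fin_two]

theorem det_s2 (x : Bool × ℕ) : (s2 x).det = 1 := by
  obtain ⟨b, i⟩ := x
  unfold s2
  cases b <;> by_cases h : i = 0 <;> simp [h]

theorem sz_inv (w : List (Bool × ℕ)) : sz w * sz (invL w) = 1 := by
  induction w with
  | nil => simp [sz, invL]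
  | cons x w ih =>
    have e1 : invL (x :: w) = invL w ++ [(!x.1, x.2)] := by simp [invL]
    have e2 : sz (x :: w) = s2 x * sz w := by simp [sz]
    have e3 : sz [(!x.1, x.2)] = s2 (!x.1, x.2) := by simp [sz]
    rw [e1, e2, sz_append, e3]
    have : s2 x * sz w * (sz (invL w) * s2 (!x.1, x.2)) = 
        s2 x * (sz w * sz (invL w)) * s2 (!x.1, x.2) := by simp only [mul_assoc]
    rw [this, ih, mul_one, s2_mul]

theorem sz_inv' (w : List (Bool × ℕ)) : sz (invL w) * sz w = 1 := mul_eq_one_comm.1 (sz_inv w)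

theorem det_sz (w : List (Bool × ℕ)) : (sz w).det = 1 := by
  induction w with
  | nil => simp [sz]
  | cons x w ih =>
    have e2 : sz (x :: w) = s2 x * sz w := by simp [sz]
    rw [e2, Matrix.det_mul, ih, det_s2, one_mul]

theorem sz_com {x y : List (Bool × ℕ)} {c : ℤ} (h : sz (com x y) = c • 1) : 
    sz x * sz y = c • (sz y * sz x) := by
  unfold com at h
  rw [sz_append, sz_append, sz_append] at h
  have h1 : sz x * sz y * sz (invL x) * sz (invL y) * (sz y * sz x) = sz x * sz y := by
    have : sz x * sz y * sz (invL x) * sz (invL y) * (sz y * sz x) = 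
        sz x * sz y * (sz (invL x) * (sz (invL y) * sz y) * sz x) := by simp only [mul_assoc]
    rw [this, sz_inv', mul_one, sz_inv', mul_one]
  rw [h, smul_mul_assoc, one_mul] at h1
  exact h1.symm

/-- congruent to `1` modulo `2`, but not `± 1` -/
structure Hy (M : Matrix (Fin 2) (Fin 2) ℤ) : Prop where
  red : M.map (Int.cast : ℤ → ZMod 2) = 1
  one : M ≠ 1
  neg : M ≠ -1

/-- conjugation by a generator -/
def cj (i : ℕ) (w : List (Bool × ℕ)) : List (Bool × ℕ) := [(true, i)] ++ w ++ invL [(true, i)]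

theorem sz_cj (i : ℕ) (w : List (Bool × ℕ)) : sz (cj i w) = s2 (true, i) * sz w * s2 (false, i) := by
  unfold cj
  rw [sz_append, sz_append]
  simp [sz, invL]

theorem red_mul (M N : Matrix (Fin 2) (Fin 2) ℤ) : (M * N).map (Int.cast : ℤ → ZMod 2) = 
    M.map (Int.cast : ℤ → ZMod 2) * N.map (Int.cast : ℤ → ZMod 2) := 
  Matrix.map_mul (f := Int.castRingHom (ZMod 2))

theorem red_one : (1 : Matrix (Fin 2) (Fin 2) ℤ).map (Int.cast : ℤ → ZMod 2) = 1 := by
  ext i j; fin_cases i <;> fin_cases j <;> simp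

theorem red_com {x y : List (Bool × ℕ)} (hx : (sz x).map (Int.cast : ℤ → ZMod 2) = 1) 
    (hy : (sz y).map (Int.cast : ℤ → ZMod 2) = 1) : (sz (com x y)).map (Int.cast : ℤ → ZMod 2) = 1 := by
  have h1 := congrArg (fun M => M.map (Int.cast : ℤ → ZMod 2)) (sz_inv x)
  have h2 := congrArg (fun M => M.map (Int.cast : ℤ → ZMod 2)) (sz_inv y)
  simp only [red_mul, red_one, hx, hy, one_mul] at h1 h2
  unfold com
  rw [sz_append, sz_append, sz_append, red_mul, red_mul, red_mul, hx, hy, h1, h2]
  simp

theorem red_cj (i : ℕ) {w : List (Bool × ℕ)} (hw : (sz w).map (Int.cast : ℤ → ZMod 2) = 1) : 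
    (sz (cj i w)).map (Int.cast : ℤ → ZMod 2) = 1 := by
  have h1 := congrArg (fun M => M.map (Int.cast : ℤ → ZMod 2)) (s2_mul (true, i))
  simp only [red_mul, red_one] at h1
  rw [sz_cj, red_mul, red_mul, hw, mul_one]
  exact h1

theorem trace_ne {w : List (Bool × ℕ)} (hw : (sz w).map (Int.cast : ℤ → ZMod 2) = 1) : (sz w).trace ≠ 0 := by
  have hd := det_sz w
  rw [Matrix.det_fin_two] at hd
  rw [Matrix.trace_fin_two]
  have h01 := congrFun (congrFun hw 0) 1
  have h10 := congrFun (congrFun hw 1) 0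
  simp only [Matrix.map_apply, ne_eq, zero_ne_one, not_false_eq_true, Matrix.one_apply_ne, one_ne_zero] at h01 h10
  rw [ZMod.intCast_zmod_eq_zero_iff_dvd] at h01 h10
  obtain ⟨q, hq⟩ := h01
  obtain ⟨r, hr⟩ := h10
  push_cast at hq hr
  rw [hq, hr] at hd
  intro h
  have hu : sz w 1 1 = - sz w 0 0 := by linarith
  rw [hu] at hd
  generalize sz w 0 0 = p at hd
  rcases Int.even_or_odd' p with ⟨k, rfl | rfl⟩
  · have : 4 * (k * k + q * r) = -1 := by linear_combination (-1) * hd
    omega
  · have : 4 * (k * k + k + q * r) = -2 := by linear_combination (-1) * hd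
    omega

theorem sz_com_ne_neg {x : List (Bool × ℕ)} (i : ℕ) (hx : (sz x).map (Int.cast : ℤ → ZMod 2) = 1) : 
    sz (com x (cj i x)) ≠ -1 := by
  intro h
  have h1 : sz (com x (cj i x)) = (-1 : ℤ) • 1 := by rw [h, neg_smul, one_smul]
  have h2 := sz_com h1
  -- `X Y = - Y X`
  have h3 : sz x * sz (cj i x) * sz (invL x) = - sz (cj i x) := by
    rw [h2, neg_smul, one_smul, neg_mul, mul_assoc, sz_inv, mul_one]
  have h4 : (sz (cj i x)).trace = - (sz (cj i x)).trace := by
    have h5 := congrArg Matrix.trace h3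
    rw [Matrix.trace_neg, mul_assoc, Matrix.trace_mul_comm, mul_assoc, sz_inv', mul_one] at h5
    exact h5
  have h6 : (sz (cj i x)).trace = (sz x).trace := by
    rw [sz_cj, mul_assoc, Matrix.trace_mul_comm, mul_assoc]
    have : s2 (false, i) * s2 (true, i) = 1 := s2_mul (false, i)
    rw [this, mul_one]
  rw [h6] at h4
  exact trace_ne hx (by linarith)

/-- **The commutator with a conjugate is not trivial**, for one of two conjugates. -/
theorem step {x : List (Bool × ℕ)} (h : Hy (sz x)) : Hy (sz (com x (cj 0 x))) ∨ Hy (sz (com x (cj 1 x))) := by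
  have hr := fun i => red_com h.red (red_cj i h.red)
  have hn := fun i => sz_com_ne_neg i h.red
  by_cases h0 : sz (com x (cj 0 x)) = 1
  · by_cases h1 : sz (com x (cj 1 x)) = 1
    · exfalso
      have c0 := sz_com (c := 1) (by rw [h0, one_smul])
      have c1 := sz_com (c := 1) (by rw [h1, one_smul])
      rw [one_smul, sz_cj] at c0 c1
      have hd := det_sz x
      rw [Matrix.det_fin_two] at hd
      have e : sz x = !![sz x 0 0, sz x 0 1; sz x 1 0, sz x 1 1] := Matrix.eta_fin_two _
      have i1 := h.one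
      have i2 := h.neg
      rw [e] at c0 c1 i1 i2
      generalize sz x 0 0 = p at *
      generalize sz x 0 1 = q at *
      generalize sz x 1 0 = r at *
      generalize sz x 1 1 = u at *
      simp only [s2, if_true, Bool.false_eq_true, if_false, one_ne_zero, Matrix.mul_fin_two] at c0 c1
      have a1 := congrFun (congrFun c0 1) 0
      have a2 := congrFun (congrFun c0 0) 1
      have b1 := congrFun (congrFun c1 0) 1
      simp at a1 a2 b1
      have r0 : r = 0 := by nlinarith
      subst r0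
      have q0 : q = 0 := by nlinarith
      subst q0
      have hu : u = p := by nlinarith
      subst hu
      have : u = 1 ∨ u = -1 := by
        have : (u - 1) * (u + 1) = 0 := by linear_combination hd
        rcases mul_eq_zero.1 this with h | h
        · left; linarith
        · right; linarith
      rcases this with rfl | rfl
      · exact i1 (by ext i j; fin_cases i <;> fin_cases j <;> simp)
      · exact i2 (by ext i j; fin_cases i <;> fin_cases j <;> simp)
    · exact Or.inr ⟨hr 1, h1, hn 1⟩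
  · exact Or.inl ⟨hr 0, h0, hn 0⟩

/-- `σ_1 σ_0` -/
def tl : List (Bool × ℕ) := [(true, 1), (true, 0)]

theorem final {M : Matrix (Fin 2) (Fin 2) ℤ} 
    (h1 : (M * sz tl).trace = 1) (h2 : (s2 (true, 0) * M * s2 (false, 0) * sz tl).trace = 1) 
    (h3 : (s2 (true, 1) * M * s2 (false, 1) * sz tl).trace = 1)
    (h4 : (s2 (false, 1) * M * s2 (true, 1) * sz tl).trace = 1) : M = 1 := by
  have e : M = !![M 0 0, M 0 1; M 1 0, M 1 1] := Matrix.eta_fin_two _
  have t : sz tl = !![1, 1; -1, 0] := by simp [sz, tl, s2]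
  rw [t] at h1 h2 h3 h4
  rw [e] at h1 h2 h3 h4 ⊢
  generalize M 0 0 = p at *
  generalize M 0 1 = q at *
  generalize M 1 0 = r at *
  generalize M 1 1 = u at *
  simp [s2, Matrix.trace_fin_two] at h1 h2 h3 h4
  have a : p = 1 ∧ q = 0 ∧ r = 0 ∧ u = 1 := by omega
  obtain ⟨rfl, rfl, rfl, rfl⟩ := a
  ext i j; fin_cases i <;> fin_cases j <;> simp

/-! ### the bracket at `A ^ 2 = i` -/

section
open Complex LaurentPolynomial
open Pool.Agent.TH561 (dl)

/-- the Temperley-Lieb generators at the loop value zero -/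
noncomputable def Ez (i : ℕ) : Matrix (Fin 2) (Fin 2) ℂ := if i = 0 then !![0, I; 0, 0] else !![0, 0; -I, 0]

theorem isTLz : IsTLr 3 (0 : ℂ) Ez where
  sq i hi := by
    have hi' : i = 0 ∨ i = 1 := by omega
    rcases hi' with rfl | rfl <;> unfold Ez <;> ext a b <;> fin_cases a <;> fin_cases b <;> simp
  up i hi := by
    obtain rfl : i = 0 := by omega
    unfold Ez
    ext a b; fin_cases a <;> fin_cases b <;> simp
  down i hi := by
    obtain rfl : i = 0 := by omega
    unfold Ez
    ext a b; fin_cases a <;> fin_cases b <;> simp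
  far i j h1 h2 := by omega

theorem letter_z {A A' : ℂ} (hA : A * A' = 1) (h2 : A ^ 2 = I) (x : Bool × ℕ) :
    ltr A A' Ez x = (if x.1 then A else A') • (s2 x).map (Int.cast : ℤ → ℂ) := by
  have hI : I * I = -1 := I_mul_I
  have h5 : A = I * A' := by linear_combination (-A) * hA + A' * h2
  have h6 : A' = -I * A := by linear_combination I * h5 + A' * hI
  obtain ⟨b, i⟩ := x
  unfold ltr Ez s2
  cases b <;> by_cases h : i = 0 <;> simp only [h, if_true, if_false, Bool.false_eq_true] <;>
    ext a b <;> fin_cases a <;> fin_cases b <;> simp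
  all_goals first
    | linear_combination h6
    | linear_combination (-1 : ℂ) * h6
    | linear_combination h5
    | linear_combination (-1 : ℂ) * h5

theorem wd_z {A A' : ℂ} (hA : A * A' = 1) (h2 : A ^ 2 = I) (w : List (Bool × ℕ)) :
    wd A A' Ez w = chi A A' w • (sz w).map (Int.cast : ℤ → ℂ) := by
  induction w with
  | nil => simp [wd, chi, sz]
  | cons x w ih =>
    have h1 : wd A A' Ez (x :: w) = ltr A A' Ez x * wd A A' Ez w := by simp [wd]
    have h3 : sz (x :: w) = s2 x * sz w := by simp [sz]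
    have h4 : chi A A' (x :: w) = (if x.1 then A else A') * chi A A' w := by simp [chi]
    have h5 : (s2 x * sz w).map (Int.cast : ℤ → ℂ) = (s2 x).map (Int.cast : ℤ → ℂ) * (sz w).map (Int.cast : ℤ → ℂ) := 
      Matrix.map_mul (f := Int.castRingHom ℂ)
    rw [h1, ih, letter_z hA h2, h3, h4, h5, smul_mul_smul_comm]

theorem trace_z (v : V3 ℂ) : (val Ez v).trace = tr2 0 v := by
  unfold val Ez
  rw [if_pos rfl, if_neg one_ne_zero]
  simp [Matrix.trace_fin_two, tr2]
  ring

theorem tau_z {A A' : ℂ} (hA : A * A' = 1) (h2 : A ^ 2 = I) (w : List (Bool × ℕ)) (hw : ∀ x ∈ w, x.2 + 1 < 3) : 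
    tau 0 (run A A' 0 w (one ℂ)) = chi A A' w * (((sz w).trace - 2 : ℤ) : ℂ) := by
  have h := val_run (A := A) (A' := A') isTLz w (one ℂ) hw
  rw [val_one, one_mul, wd_z hA h2] at h
  have h3 := congrArg Matrix.trace h
  rw [trace_z, Matrix.trace_smul] at h3
  have h4 : ((sz w).map (Int.cast : ℤ → ℂ)).trace = (((sz w).trace : ℤ) : ℂ) := by
    simp [Matrix.trace_fin_two]
  rw [h4, smul_eq_mul] at h3
  unfold tau
  rw [h3, run_a0]
  unfold one
  push_cast
  ring

end

end Pool.Agent.U963.AR
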