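import Pool.Agent.U963.AR.Lin3

/-!
# The unitary representation of the braid group on three strands by quaternions
-/

set_option autoImplicit false

namespace Pool.Agent.U963.AR

open Quaternion Complex Pool.Agent.Y463.SK
open Pool.Agent.U963.JN (com)

/-- the matrix of a quaternion -/
noncomputable def Qm : ℍ[ℝ] →+* Matrix (Fin 2) (Fin 2) ℂ where
  toFun x := !![(x.re : ℂ) + x.imI * I, x.imJ + x.imK * I; -x.imJ + x.imK * I, x.re - x.imI * I]
  map_one' := by
    ext i j; fin_cases i <;> fin_cases j <;> simp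
  map_zero' := by
    ext i j; fin_cases i <;> fin_cases j <;> simp
  map_add' x y := by
    ext i j; fin_cases i <;> fin_cases j <;> simp <;> ring
  map_mul' x y := by
    have hI : I * I = -1 := I_mul_I
    ext i j
    fin_cases i <;> fin_cases j <;> simp [Matrix.mul_apply, Fin.sum_univ_two]
    · linear_combination (-((x.imI : ℂ) * y.imI + x.imK * y.imK)) * hI
    · linear_combination ((x.imK : ℂ) * y.imI - x.imI * y.imK) * hI
    · linear_combination ((x.imI : ℂ) * y.imK - x.imK * y.imI) * hI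
    · linear_combination (-((x.imI : ℂ) * y.imI + x.imK * y.imK)) * hI

theorem Qm_apply (x : ℍ[ℝ]) : Qm x = 
    !![(x.re : ℂ) + x.imI * I, x.imJ + x.imK * I; -x.imJ + x.imK * I, x.re - x.imI * I] := rfl

theorem tr_Qm (x : ℍ[ℝ]) : (Qm x).trace = 2 * (x.re : ℂ) := by
  rw [Qm_apply, Matrix.trace_fin_two_of]
  ring

/-- the parameters: `C = cos 2φ ≥ 1/2`, `S = sin 2φ` -/
structure Par where
  C : ℝ
  S : ℝ
  cs : C ^ 2 + S ^ 2 = 1
  hC : 1 / 2 ≤ C

namespace Par

variable (p : Par)

theorem pos : 0 < p.C := lt_of_lt_of_le (by norm_num) p.hC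

theorem le_one : p.C ≤ 1 := by nlinarith [p.cs, sq_nonneg p.S, p.pos]

/-- the square root of `1 - 1 / (4 C²)` -/
noncomputable def k : ℝ := Real.sqrt (1 - 1 / (4 * p.C ^ 2))

theorem k_sq : p.k ^ 2 = 1 - 1 / (4 * p.C ^ 2) := by
  unfold k
  rw [Real.sq_sqrt]
  have h1 : 1 ≤ 4 * p.C ^ 2 := by nlinarith [p.hC]
  have h2 : 1 / (4 * p.C ^ 2) ≤ 1 := by
    rw [div_le_one (by linarith)]
    exact h1
  linarith

/-- the loop value -/
noncomputable def d : ℝ := -(2 * p.C)

/-- the two idempotents (up to the factor `d`) -/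
noncomputable def E (i : ℕ) : Matrix (Fin 2) (Fin 2) ℂ := 
  if i = 0 then !![(p.d : ℂ), 0; 0, 0] else !![1 / (p.d : ℂ), p.k; p.k, p.d - 1 / (p.d : ℂ)]

theorem d_ne : (p.d : ℂ) ≠ 0 := by
  unfold d
  have := p.pos
  exact_mod_cast (by linarith : -(2 * p.C) < 0).ne

theorem k_sq' : (p.k : ℂ) ^ 2 = 1 - 1 / (p.d : ℂ) ^ 2 := by
  have h := p.k_sq
  unfold d
  have h2 : (-(2 * p.C)) ^ 2 = 4 * p.C ^ 2 := by ring
  rw [← Complex.ofReal_pow, ← Complex.ofReal_pow, h2, h]
  push_cast
  ring

theorem isTL : IsTLr 3 (p.d : ℂ) p.E where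
  sq i hi := by
    have hd := p.d_ne
    have hk := p.k_sq'
    have hi' : i = 0 ∨ i = 1 := by omega
    rcases hi' with rfl | rfl
    · unfold E
      rw [if_pos rfl]
      ext i j; fin_cases i <;> fin_cases j <;> simp [Matrix.mul_apply, Fin.sum_univ_two]
    · unfold E
      rw [if_neg one_ne_zero]
      ext i j; fin_cases i <;> fin_cases j <;> simp [Matrix.mul_apply, Fin.sum_univ_two]
      · field_simp
        field_simp at hk
        linear_combination hk
      · field_simp
        ring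
      · field_simp
        ring
      · field_simp
        field_simp at hk
        linear_combination hk
  up i hi := by
    obtain rfl : i = 0 := by omega
    have hd := p.d_ne
    unfold E
    rw [if_pos rfl, if_neg (by norm_num)]
    ext i j; fin_cases i <;> fin_cases j <;> simp [Matrix.mul_apply, Fin.sum_univ_two, hd]
  down i hi := by
    obtain rfl : i = 0 := by omega
    have hd := p.d_ne
    have hk := p.k_sq'
    unfold E
    rw [if_pos rfl, if_neg (by norm_num)]
    ext i j; fin_cases i <;> fin_cases j <;> simp [Matrix.mul_apply, Fin.sum_univ_two, hd]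
    field_simp
    field_simp at hk
    linear_combination hk
  far i j h1 h2 := by omega

/-- the quaternions of the generators -/
noncomputable def q0 : ℍ[ℝ] := ⟨p.S, p.C, 0, 0⟩
noncomputable def q1 : ℍ[ℝ] := ⟨p.S, 1 / (2 * p.C) - p.C, 0, -p.k⟩
noncomputable def q (i : ℕ) : ℍ[ℝ] := if i = 0 then p.q0 else p.q1

theorem q0_re : p.q0.re = p.S := rfl
theorem q0_i : p.q0.imI = p.C := rfl
theorem q0_j : p.q0.imJ = 0 := rfl
theorem q0_k : p.q0.imK = 0 := rfl
theorem q1_re : p.q1.re = p.S := rfl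
theorem q1_i : p.q1.imI = 1 / (2 * p.C) - p.C := rfl
theorem q1_j : p.q1.imJ = 0 := rfl
theorem q1_k : p.q1.imK = -p.k := rfl

theorem normSq_q (i : ℕ) : normSq (p.q i) = 1 := by
  unfold q
  have hC := p.pos
  split_ifs
  · rw [Quaternion.normSq_def', q0_re, q0_i, q0_j, q0_k]
    linarith [p.cs]
  · rw [Quaternion.normSq_def', q1_re, q1_i, q1_j, q1_k]
    have h := p.k_sq
    have h1 : (1 / (2 * p.C) - p.C) ^ 2 = 1 / (4 * p.C ^ 2) - 1 + p.C ^ 2 := by
      field_simp
      ring
    rw [h1]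
    nlinarith [p.cs]

theorem norm_q (i : ℕ) : ‖p.q i‖ = 1 := by
  have h := Quaternion.normSq_eq_norm_mul_self (p.q i)
  rw [p.normSq_q] at h
  nlinarith [norm_nonneg (p.q i)]

/-- the quaternion of a letter -/
noncomputable def ql (x : Bool × ℕ) : ℍ[ℝ] := if x.1 then p.q x.2 else star (p.q x.2)

/-- the quaternion of a word -/
noncomputable def qw (w : List (Bool × ℕ)) : ℍ[ℝ] := (w.map p.ql).prod

theorem qw_append (w w' : List (Bool × ℕ)) : p.qw (w ++ w') = p.qw w * p.qw w' := by simp [qw]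

theorem norm_ql (x : Bool × ℕ) : ‖p.ql x‖ = 1 := by
  unfold ql
  split_ifs
  · exact p.norm_q _
  · rw [Quaternion.norm_star]; exact p.norm_q _

theorem norm_qw (w : List (Bool × ℕ)) : ‖p.qw w‖ = 1 := by
  induction w with
  | nil => simp [qw]
  | cons x w ih =>
    have : p.qw (x :: w) = p.ql x * p.qw w := by simp [qw]
    rw [this, norm_mul, ih, p.norm_ql, one_mul]

theorem ql_mul (x : Bool × ℕ) : p.ql x * p.ql (!x.1, x.2) = 1 := by
  have h1 : p.q x.2 * star (p.q x.2) = 1 := by
    rw [Quaternion.self_mul_star, p.normSq_q, Quaternion.coe_one]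
  have h2 : star (p.q x.2) * p.q x.2 = 1 := by
    rw [Quaternion.star_mul_self, p.normSq_q, Quaternion.coe_one]
  unfold ql
  cases x.1 <;> simp [h1, h2]

theorem qw_inv (w : List (Bool × ℕ)) : p.qw w * p.qw (invL w) = 1 := by
  induction w with
  | nil => simp [qw, invL]
  | cons x w ih =>
    have e1 : invL (x :: w) = invL w ++ [(!x.1, x.2)] := by simp [invL]
    have e2 : p.qw (x :: w) = p.ql x * p.qw w := by simp [qw]
    have e3 : p.qw [(!x.1, x.2)] = p.ql (!x.1, x.2) := by simp [qw]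
    rw [e1, e2, qw_append, e3]
    have : p.ql x * p.qw w * (p.qw (invL w) * p.ql (!x.1, x.2)) = 
        p.ql x * (p.qw w * p.qw (invL w)) * p.ql (!x.1, x.2) := by simp only [mul_assoc]
    rw [this, ih, mul_one, p.ql_mul]

theorem qw_invL (w : List (Bool × ℕ)) : p.qw (invL w) = (p.qw w)⁻¹ := 
  eq_inv_of_mul_eq_one_right (p.qw_inv w)

/-- the distance from the identity -/
noncomputable def r (w : List (Bool × ℕ)) : ℝ := ‖p.qw w - 1‖

theorem qw_ne (w : List (Bool × ℕ)) : p.qw w ≠ 0 := by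
  intro h
  have := p.norm_qw w
  rw [h, norm_zero] at this
  exact zero_ne_one this

theorem r_com (x y : List (Bool × ℕ)) : p.r (com x y) ≤ 2 * p.r x * p.r y := by
  unfold r com
  rw [qw_append, qw_append, qw_append, qw_invL, qw_invL]
  have hx := p.qw_ne x
  have hy := p.qw_ne y
  have nx := p.norm_qw x
  have ny := p.norm_qw y
  generalize p.qw x = u at *
  generalize p.qw y = v at *
  have e : u * v * u⁻¹ * v⁻¹ - 1 = ((u - 1) * (v - 1) - (v - 1) * (u - 1)) * (u⁻¹ * v⁻¹) := by
    have h1 : (u - 1) * (v - 1) - (v - 1) * (u - 1) = u * v - v * u := by noncomm_ring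
    have h2 : v * u * (u⁻¹ * v⁻¹) = 1 := by
      rw [mul_assoc, ← mul_assoc u, mul_inv_cancel₀ hx, one_mul, mul_inv_cancel₀ hy]
    rw [h1, sub_mul, h2, mul_assoc (u * v)]
  rw [e, norm_mul, norm_mul, norm_inv, norm_inv, nx, ny]
  calc ‖(u - 1) * (v - 1) - (v - 1) * (u - 1)‖ * (1⁻¹ * 1⁻¹) 
      = ‖(u - 1) * (v - 1) - (v - 1) * (u - 1)‖ := by norm_num
    _ ≤ ‖(u - 1) * (v - 1)‖ + ‖(v - 1) * (u - 1)‖ := norm_sub_le _ _
    _ = 2 * ‖u - 1‖ * ‖v - 1‖ := by rw [norm_mul, norm_mul]; ring

theorem r_conj (h w : List (Bool × ℕ)) : p.r (h ++ w ++ invL h) = p.r w := by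
  unfold r
  rw [qw_append, qw_append, qw_invL]
  have hx := p.qw_ne h
  have nx := p.norm_qw h
  generalize p.qw h = u at *
  have e : u * p.qw w * u⁻¹ - 1 = u * (p.qw w - 1) * u⁻¹ := by
    rw [mul_sub, mul_one, sub_mul, mul_inv_cancel₀ hx]
  rw [e, norm_mul, norm_mul, norm_inv, nx]
  norm_num

theorem r_nonneg (w : List (Bool × ℕ)) : 0 ≤ p.r w := norm_nonneg _

/-! ### the representation -/

theorem letter {A A' : ℂ} (hA : A * A' = 1) (h2 : A ^ 2 = p.C + p.S * I) {x : Bool × ℕ} :
    ltr A A' p.E x = (if x.1 then I * A' else -I * A) • Qm (p.ql x) := by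
  have hd := p.d_ne
  have hC : (p.C : ℂ) ≠ 0 := by exact_mod_cast p.pos.ne'
  have hcs : (p.C : ℂ) ^ 2 + (p.S : ℂ) ^ 2 = 1 := by exact_mod_cast p.cs
  have hI : I * I = -1 := I_mul_I
  have h3 : A' ^ 2 = p.C - p.S * I := by
    have h4 : A ^ 2 * A' ^ 2 = 1 := by linear_combination (A * A' + 1) * hA
    have h5 : ((p.C : ℂ) + p.S * I) * (p.C - p.S * I) = 1 := by linear_combination hcs - (p.S : ℂ) ^ 2 * hI
    have h6 : A ^ 2 ≠ 0 := by
      intro h; rw [h, zero_mul] at h4; exact zero_ne_one h4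
    apply mul_left_cancel₀ h6
    rw [h4, h2, h5]
  have key : ∀ i : ℕ, (-I * (A ^ 2)) • (1 : Matrix (Fin 2) (Fin 2) ℂ) + (-I) • p.E i = Qm (p.q i) := by
    intro i
    rw [h2]
    unfold E q
    split_ifs
    · rw [Qm_apply, q0_re, q0_i, q0_j, q0_k]
      unfold d
      ext a b; fin_cases a <;> fin_cases b <;> simp
      · linear_combination (-(p.S : ℂ)) * hI
      · linear_combination (-(p.S : ℂ)) * hI
    · rw [Qm_apply, q1_re, q1_i, q1_j, q1_k]
      unfold d
      ext a b; fin_cases a <;> fin_cases b <;> simp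
      · field_simp
        linear_combination (-(p.S : ℂ)) * 2 * p.C * hI
      · ring
      · ring
      · field_simp
        linear_combination (-(p.S : ℂ)) * 2 * p.C * hI
  have key' : ∀ i : ℕ, (I * (A' ^ 2)) • (1 : Matrix (Fin 2) (Fin 2) ℂ) + I • p.E i = Qm (star (p.q i)) := by
    intro i
    rw [h3]
    unfold E q
    split_ifs
    · rw [Qm_apply, Quaternion.re_star, Quaternion.imI_star, Quaternion.imJ_star, Quaternion.imK_star, 
        q0_re, q0_i, q0_j, q0_k]
      unfold d
      ext a b; fin_cases a <;> fin_cases b <;> simp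
      · linear_combination (-(p.S : ℂ)) * hI
      · linear_combination (-(p.S : ℂ)) * hI
    · rw [Qm_apply, Quaternion.re_star, Quaternion.imI_star, Quaternion.imJ_star, Quaternion.imK_star, 
        q1_re, q1_i, q1_j, q1_k]
      unfold d
      ext a b; fin_cases a <;> fin_cases b <;> simp
      · field_simp
        linear_combination (-(p.S : ℂ)) * 2 * p.C * hI
      · ring
      · ring
      · field_simp
        linear_combination (-(p.S : ℂ)) * 2 * p.C * hI
  unfold ltr ql
  cases x.1 with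
  | true =>
    simp only [if_true]
    rw [← key, smul_add, smul_smul, smul_smul]
    congr 2
    · linear_combination (-A) * hA + A' * A ^ 2 * hI
    · linear_combination A' * hI
  | false =>
    simp only [Bool.false_eq_true, if_false]
    rw [← key', smul_add, smul_smul, smul_smul]
    congr 2
    · linear_combination (-A') * hA + A * A' ^ 2 * hI
    · linear_combination A * hI

theorem wd_eq {A A' : ℂ} (hA : A * A' = 1) (h2 : A ^ 2 = p.C + p.S * I) (w : List (Bool × ℕ)) :
    wd A A' p.E w = chi (I * A') (-I * A) w • Qm (p.qw w) := by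
  induction w with
  | nil => simp [wd, chi, qw]
  | cons x w ih =>
    have h1 : wd A A' p.E (x :: w) = ltr A A' p.E x * wd A A' p.E w := by simp [wd]
    have h3 : p.qw (x :: w) = p.ql x * p.qw w := by simp [qw]
    have h4 : chi (I * A') (-I * A) (x :: w) = (if x.1 then I * A' else -I * A) * chi (I * A') (-I * A) w := by 
      simp [chi]
    rw [h1, ih, p.letter hA h2, h3, h4, map_mul, smul_mul_smul_comm]

/-- the coefficients of a word -/
noncomputable def co (A A' : ℂ) (w : List (Bool × ℕ)) : V3 ℂ := run A A' (p.d : ℂ) w (one ℂ)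

theorem val_co {A A' : ℂ} (w : List (Bool × ℕ)) (hw : ∀ x ∈ w, x.2 + 1 < 3) : 
    val p.E (p.co A A' w) = wd A A' p.E w := by
  have h := val_run (A := A) (A' := A') p.isTL w (one ℂ) hw
  rw [val_one, one_mul] at h
  exact h

theorem trace_val (v : V3 ℂ) : (val p.E v).trace = tr2 (p.d : ℂ) v := by
  have hd := p.d_ne
  unfold val E
  rw [if_pos rfl, if_neg one_ne_zero]
  simp [Matrix.trace_fin_two, Matrix.mul_apply, Fin.sum_univ_two, hd, tr2]
  ring

/-- the real part of the quaternion of a commutator -/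
theorem tr2_co {A A' : ℂ} (hA : A * A' = 1) (h2 : A ^ 2 = p.C + p.S * I) (w : List (Bool × ℕ)) 
    (hw : ∀ x ∈ w, x.2 + 1 < 3) : 
    tr2 (p.d : ℂ) (p.co A A' w) = chi (I * A') (-I * A) w * (2 * ((p.qw w).re : ℂ)) := by
  rw [← p.trace_val, p.val_co w hw, p.wd_eq hA h2, Matrix.trace_smul, tr_Qm, smul_eq_mul]

theorem r_sq (w : List (Bool × ℕ)) : p.r w ^ 2 = 2 - 2 * (p.qw w).re := by
  unfold r
  have h1 := p.norm_qw w
  have h2 := Quaternion.normSq_eq_norm_mul_self (p.qw w)
  have h3 := Quaternion.normSq_eq_norm_mul_self (p.qw w - 1)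
  rw [Quaternion.normSq_def'] at h2 h3
  rw [h1] at h2
  rw [sq, ← h3]
  simp only [Quaternion.re_sub, Quaternion.imI_sub, Quaternion.imJ_sub, Quaternion.imK_sub, Quaternion.re_one, 
    Quaternion.imI_one, Quaternion.imJ_one, Quaternion.imK_one]
  linarith

end Par

end Pool.Agent.U963.AR
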