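import Pool.Agent.U963.AR.Loc
import Pool.Agent.U963.LN.Clo

/-!
# Insertion of the words into sliced knot diagrams
-/

set_option autoImplicit false

namespace Pool.Agent.U963.AR

open Pool.Agent.Y463.SK (invL permL)
open Pool.Agent.U963.JN (Lev at_ shift shift_zero)
open Pool.Agent.Y466.FT (RS ES Iv Tr Dg ext phi cl cl_eq draw dg_phi iv_phi run_n plug DegreeLE.mono)
open Pool.Agent.H835R2 Pool.Agent.H835R2.Knot Pool.Agent.H835R2.Flat
open Pool.Agent.U963.LN (births deaths clo)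

variable {A : Type} [AddCommGroup A]

theorem ext_insert {v : Word → A} {d k : ℕ} (hv : IsInvariant v) (hd : DegreeLE d v) (u₀ u₁ : Word) (i : ℕ) 
    (h : i + 3 ≤ (Knot.run u₀ Front.empty).n) {w : List (Bool × ℕ)} (hw : Fw k w) (hn : d < 2 ^ (k + 1)) : 
    ext v (u₀ ++ draw (shift i w) ++ u₁) = ext v (u₀ ++ u₁) := by
  have h0 : ∀ j : Fin 1, Pool.Agent.Y466.FT.wd u₀ (fun _ => u₁) j = (Knot.run u₀ Front.empty).n := by
    intro j
    have hj : j = 0 := Subsingleton.elim _ _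
    subst hj
    rw [run_n]
    unfold Pool.Agent.Y466.FT.wd
    simp
    rfl
  have hd' : DegreeLE (2 ^ (k + 1) - 1) v := DegreeLE.mono (by omega) hd
  have h1 := dg_phi u₀ (fun _ : Fin 1 => u₁) hd'
  have h2 := iv_phi u₀ (fun _ : Fin 1 => u₁) hv
  have h3 := hw.lev A 1 (Pool.Agent.Y466.FT.wd u₀ (fun _ : Fin 1 => u₁)) 0 i 
    (by rw [h0]; exact h) _ h2 0 (by
      have : 0 + 2 ^ (k + 1) = 2 ^ (k + 1) - 1 + 1 := by omega
      rw [this]
      exact h1)
  have h4 := h3 1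
  unfold Tr at h4
  rw [mul_one, sub_eq_zero] at h4
  have e1 : phi u₀ (fun _ : Fin 1 => u₁) v (at_ 0 (shift i w)) = ext v (u₀ ++ draw (shift i w) ++ u₁) := by
    unfold phi plug at_ draw
    simp
  have e2 : phi u₀ (fun _ : Fin 1 => u₁) v 1 = ext v (u₀ ++ u₁) := by
    unfold phi plug
    simp
  rw [e1, e2] at h4
  exact h4

theorem knot_insert (u₀ u₁ : Word) (i : ℕ) (h : i + 3 ≤ (Knot.run u₀ Front.empty).n) {k : ℕ} 
    {w : List (Bool × ℕ)} (hw : Fw k w) : 
    IsKnot (u₀ ++ draw (shift i w) ++ u₁) ↔ IsKnot (u₀ ++ u₁) := by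
  have hd : DegreeLE 0 (fun _ : Word => (1 : ℤ)) := by
    intro D _ S _ hS
    obtain ⟨x, rfl⟩ := Finset.card_eq_one.1 (by simpa using hS)
    rw [show ({x} : Finset ℕ).powerset = {∅, {x}} from rfl]
    rw [Finset.sum_pair (by simp)]
    simp
  have h1 := ext_insert (v := fun _ : Word => (1 : ℤ)) (fun _ _ _ _ => rfl) hd u₀ u₁ i h hw (by positivity)
  unfold ext at h1
  by_cases h2 : IsKnot (u₀ ++ draw (shift i w) ++ u₁) <;> by_cases h3 : IsKnot (u₀ ++ u₁)
  · exact ⟨fun _ => h3, fun _ => h2⟩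
  · rw [if_pos h2, if_neg h3] at h1
    exact absurd h1 one_ne_zero
  · rw [if_neg h2, if_pos h3] at h1
    exact absurd h1.symm one_ne_zero
  · exact ⟨fun h => absurd h h2, fun h => absurd h h3⟩

theorem insert_eq {v : Word → A} {d k : ℕ} (hv : IsInvariant v) (hd : DegreeLE d v) (u₀ u₁ : Word) (i : ℕ) 
    (h : i + 3 ≤ (Knot.run u₀ Front.empty).n) {w : List (Bool × ℕ)} (hw : Fw k w) (hn : d < 2 ^ (k + 1)) 
    (hk : IsKnot (u₀ ++ u₁)) : 
    v (u₀ ++ draw (shift i w) ++ u₁) = v (u₀ ++ u₁) := by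
  have h1 := ext_insert hv hd u₀ u₁ i h hw hn
  unfold ext at h1
  rwa [if_pos hk, if_pos ((knot_insert u₀ u₁ i h hw).2 hk)] at h1

theorem clo_eq (w : List (Bool × ℕ)) : clo 3 (w ++ tl) = births 3 ++ draw (shift 0 w) ++ (draw tl ++ deaths 3) := by
  unfold Pool.Agent.U963.LN.clo
  rw [shift_zero, Pool.Agent.U963.LN.draw_app]
  simp only [List.append_assoc]

theorem clo_tl : births 3 ++ (draw tl ++ deaths 3) = clo 3 tl := by
  unfold Pool.Agent.U963.LN.clo
  simp only [List.append_assoc]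

theorem births_n : 0 + 3 ≤ (Knot.run (births 3) Front.empty).n := by
  rw [(Pool.Agent.U963.LN.births_front 3).1]
  norm_num

theorem knot_clo {k : ℕ} {w : List (Bool × ℕ)} (hw : Fw k w) : IsKnot (clo 3 (w ++ tl)) := by
  rw [clo_eq]
  refine (knot_insert (births 3) (draw tl ++ deaths 3) 0 births_n hw).2 ?_
  rw [clo_tl]
  exact Pool.Agent.U963.LN.knot_tw 2

theorem vas_clo {v : Word → A} {d k : ℕ} (hv : IsInvariant v) (hd : DegreeLE d v) 
    {w : List (Bool × ℕ)} (hw : Fw k w) (hn : d < 2 ^ (k + 1)) : v (clo 3 (w ++ tl)) = v circle := by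
  have h := insert_eq hv hd (births 3) (draw tl ++ deaths 3) 0 births_n hw hn 
    (by rw [clo_tl]; exact Pool.Agent.U963.LN.knot_tw 2)
  rw [clo_eq, h, clo_tl]
  exact (hv _ _ (by decide) (Pool.Agent.U963.LN.clo_tw 2).2).symm

end Pool.Agent.U963.AR
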