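import Pool.Agent.U963.AR.Base
import Pool.Agent.U963.AR.Non
import Pool.Agent.U963.JN.Vas

/-!
# The words
-/

set_option autoImplicit false

namespace Pool.Agent.U963.AR

open Pool.Agent.Y463.SK (invL permL permL_append permL_inv costS costS_append costS_inv)
open Pool.Agent.U963.JN (com Lev Lev_pure Lev_comW at_ at_append at_inv invL_append invL_invL permL_invL costS_com
  shift shift_append shift_com shift_invL permL_shift_one permL_com)
open Pool.Agent.Y466.FT (RS ES Iv Tr Dg cphi ext phi cl cl_eq draw dg_phi iv_phi run_n plug)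
open Pool.Agent.H835R2.Knot

section
variable {M : Type*} [Monoid M] {A : Type} [AddCommGroup A] {R E : Set (M × M)}

theorem Lev_conj {a : ℕ} {w h h' : M} (hw : Lev A R E a w) 
    (h1 : ∀ c : Con M, (∀ r ∈ R, c r.1 r.2) → c (h * h') 1) : Lev A R E a (h * w * h') := by
  intro φ hφ n hd
  have i1 : Iv R (fun p => φ (h * p)) := by
    intro r hr a b
    have := hφ r hr (h * a) b
    simpa only [mul_assoc] using this
  have d1 : Dg E n (Tr w (fun p => φ (h * p))) := hw _ i1 n (hd.trans h)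
  refine (d1.trans h').congr fun p => ?_
  have e1 := h1 (cphi φ) (fun r hr => hφ r hr) 1 p
  simp only [one_mul, mul_one] at e1
  unfold Tr
  simp only [mul_assoc] at e1 ⊢
  rw [e1]

end

/-- conjugation by a word -/
def cjL (h w : List (Bool × ℕ)) : List (Bool × ℕ) := h ++ w ++ invL h

theorem cj_eq (i : ℕ) (w : List (Bool × ℕ)) : cj i w = cjL [(true, i)] w := rfl

theorem invL_lt {m : ℕ} {w : List (Bool × ℕ)} (h : ∀ x ∈ w, x.2 + 1 < m) : ∀ x ∈ invL w, x.2 + 1 < m := 
  Pool.Agent.U963.JN.invL_lt h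

theorem cjL_lt {m : ℕ} {h w : List (Bool × ℕ)} (hh : ∀ x ∈ h, x.2 + 1 < m) (hw : ∀ x ∈ w, x.2 + 1 < m) : 
    ∀ x ∈ cjL h w, x.2 + 1 < m := by
  intro x hx
  unfold cjL at hx
  simp only [List.mem_append] at hx
  rcases hx with (hx | hx) | hx
  · exact hh x hx
  · exact hw x hx
  · exact invL_lt hh x hx

theorem com_lt' {m : ℕ} {x y : List (Bool × ℕ)} (hx : ∀ z ∈ x, z.2 + 1 < m) (hy : ∀ z ∈ y, z.2 + 1 < m) : 
    ∀ z ∈ com x y, z.2 + 1 < m := by
  intro z hz
  unfold com at hz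
  simp only [List.mem_append] at hz
  rcases hz with ((hz | hz) | hz) | hz
  · exact hx z hz
  · exact hy z hz
  · exact invL_lt hx z hz
  · exact invL_lt hy z hz

theorem permL_cjL {h w : List (Bool × ℕ)} (hw : permL w = 1) : permL (cjL h w) = 1 := by
  unfold cjL
  rw [permL_append, permL_append, hw, mul_one, permL_inv]

theorem costS_cjL {h w : List (Bool × ℕ)} (hp : permL w = 1) (hw : ∀ U, costS w U = 0) (U : ℕ → ℤ) : 
    costS (cjL h w) U = 0 := by
  unfold cjL
  rw [costS_append, costS_append, hw, permL_append, hp, mul_one, costS_inv]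
  ring

theorem length_com (x y : List (Bool × ℕ)) : (com x y).length = 2 * x.length + 2 * y.length := by
  simp [com, invL]
  ring

theorem length_cjL (h w : List (Bool × ℕ)) : (cjL h w).length = w.length + 2 * h.length := by
  simp [cjL, invL]
  ring

theorem shift_lt3 {m i : ℕ} (h : i + 3 ≤ m) {w : List (Bool × ℕ)} (hw : ∀ x ∈ w, x.2 + 1 < 3) : 
    ∀ l ∈ shift i w, l.2 + 1 < m := by
  intro l hl
  obtain ⟨x, hx, rfl⟩ := List.mem_map.1 hl
  have := hw x hx
  show x.2 + i + 1 < m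
  omega

section
variable {A : Type} [AddCommGroup A] {k : ℕ} {m : Fin k → ℕ} {j : Fin k}

theorem Lev_cjL {a i : ℕ} (hi : i + 3 ≤ m j) {h w : List (Bool × ℕ)} (hh : ∀ x ∈ h, x.2 + 1 < 3)
    (hw : Lev A (RS m) (ES m) a (at_ j (shift i w))) : Lev A (RS m) (ES m) a (at_ j (shift i (cjL h w))) := by
  unfold cjL
  rw [shift_append, shift_append, shift_invL, at_append, at_append]
  exact Lev_conj hw (at_inv (shift_lt3 hi hh))

end

/-- the properties of the `k`-th word -/
structure Pr (k : ℕ) (w : List (Bool × ℕ)) : Prop where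
  lt : ∀ x ∈ w, x.2 + 1 < 3
  pure : permL w = 1
  bal : ∀ u u' : ℂ, u * u' = 1 → chi u u' w = 1
  len : 3 * w.length + 4 = 118 * 4 ^ k
  hy : Hy (sz w)
  close : ∀ p : Par, 4 * p.r w ^ 2 ≤ ((8 / 9) ^ 3) ^ (2 ^ k)
  lev : ∀ (A : Type) [AddCommGroup A] (n : ℕ) (m : Fin n → ℕ) (j : Fin n) (i : ℕ), i + 3 ≤ m j → 
    Lev A (RS m) (ES m) (2 ^ k) (at_ j (shift i w))

theorem par_exists (p : Par) : ∃ A A' : ℂ, A * A' = 1 ∧ A ^ 2 = p.C + p.S * Complex.I ∧ 
    A' ^ 2 = p.C - p.S * Complex.I := by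
  have hcs : (p.C : ℂ) ^ 2 + (p.S : ℂ) ^ 2 = 1 := by exact_mod_cast p.cs
  obtain ⟨A, hA⟩ := IsAlgClosed.exists_pow_nat_eq ((p.C : ℂ) + p.S * Complex.I) (n := 2) (by norm_num)
  have h5 : ((p.C : ℂ) + p.S * Complex.I) * (p.C - p.S * Complex.I) = 1 := by 
    linear_combination hcs - (p.S : ℂ) ^ 2 * Complex.I_mul_I
  have h0 : A ≠ 0 := by
    intro h
    rw [h] at hA
    rw [← hA] at h5
    simp at h5
  refine ⟨A, A⁻¹, mul_inv_cancel₀ h0, hA, ?_⟩
  rw [inv_pow, hA]
  exact inv_eq_of_mul_eq_one_right h5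

/-! ### the matrix of the base word -/

/-- the step of the computation -/
def sq4 (v : ℤ × ℤ × ℤ × ℤ) (x : Bool × ℕ) : ℤ × ℤ × ℤ × ℤ :=
  match x.1, x.2, v with
  | true, 0, (p, q, r, u) => (p, p + q, r, r + u)
  | false, 0, (p, q, r, u) => (p, q - p, r, u - r)
  | true, _, (p, q, r, u) => (p - q, q, r - u, u)
  | false, _, (p, q, r, u) => (p + q, q, r + u, u)

def toM (v : ℤ × ℤ × ℤ × ℤ) : Matrix (Fin 2) (Fin 2) ℤ := !![v.1, v.2.1; v.2.2.1, v.2.2.2]

theorem toM_sq4 (v : ℤ × ℤ × ℤ × ℤ) (x : Bool × ℕ) : toM (sq4 v x) = toM v * s2 x := by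
  obtain ⟨p, q, r, u⟩ := v
  obtain ⟨b, i⟩ := x
  unfold s2 toM
  rcases i with _ | i <;> cases b <;> simp [sq4] <;> ring_nf <;> simp

theorem toM_fold (w : List (Bool × ℕ)) : ∀ v, toM (w.foldl sq4 v) = toM v * sz w := by
  induction w with
  | nil => intro v; simp [sz]
  | cons x w ih =>
    intro v
    have e2 : sz (x :: w) = s2 x * sz w := by simp [sz]
    rw [List.foldl_cons, ih, toM_sq4, e2, mul_assoc]

theorem permL_gg : permL gg = 1 := by
  simp only [permL, gg, List.map, List.prod_cons, List.prod_nil, mul_one, Equiv.swap_mul_self_mul, 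
    Equiv.swap_mul_self]

theorem permL_W0 : permL W0 = 1 := by
  unfold W0 com
  rw [permL_append, permL_append, permL_append, permL_gg, permL_invL permL_gg, one_mul, mul_one, permL_inv]

theorem W0_lt : ∀ x ∈ W0, x.2 + 1 < 3 := by decide

theorem sz_W0 : sz W0 = !![1621441, 583200; 1257120, 452161] := by
  have h := toM_fold W0 (1, 0, 0, 1)
  have c : W0.foldl sq4 (1, 0, 0, 1) = (1621441, 583200, 1257120, 452161) := by decide +kernel
  have e : toM (1, 0, 0, 1) = 1 := by
    unfold toM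
    ext i j; fin_cases i <;> fin_cases j <;> simp
  rw [c, e, one_mul] at h
  rw [← h]
  rfl

theorem hy_W0 : Hy (sz W0) where
  red := by
    rw [sz_W0]
    ext i j; fin_cases i <;> fin_cases j <;> simp <;> decide
  one h := by
    rw [sz_W0] at h
    have := congrFun (congrFun h 0) 1
    simp at this
  neg h := by
    rw [sz_W0] at h
    have := congrFun (congrFun h 0) 1
    simp at this

theorem pr_zero : Pr 0 W0 where
  lt := W0_lt
  pure := permL_W0
  bal u u' h := chi_com h _ _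
  len := by norm_num [W0, gg, hh, com, invL]
  hy := hy_W0
  close p := by
    obtain ⟨A, A', h1, h2, h3⟩ := par_exists p
    have := p.r_W0 h1 h2 h3
    simpa using this
  lev A _ n m j i h := by
    rw [pow_zero]
    exact Lev_pure (shift_lt3 h W0_lt) (permL_shift_one permL_W0)

theorem pr_step {k : ℕ} {w : List (Bool × ℕ)} (h : Pr k w) (c : ℕ) (hc : c < 2) (hy : Hy (sz (com w (cj c w)))) : 
    Pr (k + 1) (com w (cj c w)) := by
  have hcl : ∀ x ∈ [(true, c)], x.2 + 1 < 3 := by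
    intro x hx
    rw [List.mem_singleton] at hx
    subst hx
    show c + 1 < 3
    omega
  have hlt : ∀ x ∈ cj c w, x.2 + 1 < 3 := cjL_lt hcl h.lt
  have hpu : permL (cj c w) = 1 := permL_cjL h.pure
  refine ⟨com_lt' h.lt hlt, permL_com hpu, fun u u' e => chi_com e _ _, ?_, hy, fun p => ?_, ?_⟩
  · rw [length_com, cj_eq, length_cjL, pow_succ]
    have := h.len
    simp only [List.length_singleton]
    linarith
  · have h1 := p.r_com w (cj c w)
    have h2 : p.r (cj c w) = p.r w := p.r_conj _ _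
    rw [h2] at h1
    have h3 := h.close p
    have h4 := p.r_nonneg (com w (cj c w))
    have h5 := p.r_nonneg w
    calc 4 * p.r (com w (cj c w)) ^ 2 ≤ 4 * (2 * p.r w * p.r w) ^ 2 := by
          have := pow_le_pow_left₀ h4 h1 2
          linarith
      _ = (4 * p.r w ^ 2) ^ 2 := by ring
      _ ≤ (((8 / 9) ^ 3) ^ (2 ^ k)) ^ 2 := pow_le_pow_left₀ (by positivity) h3 2
      _ = ((8 / 9) ^ 3) ^ (2 ^ (k + 1)) := by rw [← pow_mul, ← pow_succ]
  · intro A _ n m j i hi
    have h1 := h.lev A n m j i hi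
    have h2 : Lev A (RS m) (ES m) (2 ^ k) (at_ j (shift i (cj c w))) := Lev_cjL hi hcl h1
    rw [shift_com, pow_succ, mul_two]
    exact Lev_comW h1 h2 (shift_lt3 hi h.lt) (shift_lt3 hi hlt)

theorem pr_exists (k : ℕ) : ∃ w, Pr k w := by
  induction k with
  | zero => exact ⟨W0, pr_zero⟩
  | succ k ih =>
    obtain ⟨w, h⟩ := ih
    rcases step h.hy with h0 | h1
    · exact ⟨_, pr_step h 0 (by norm_num) h0⟩
    · exact ⟨_, pr_step h 1 (by norm_num) h1⟩

/-- the properties of the final words -/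
structure Fw (k : ℕ) (w : List (Bool × ℕ)) : Prop where
  lt : ∀ x ∈ w, x.2 + 1 < 3
  pure : permL w = 1
  cost : ∀ U, costS w U = 0
  bal : ∀ u u' : ℂ, u * u' = 1 → chi u u' w = 1
  len : w.length ≤ 160 * 4 ^ k
  close : ∀ p : Par, 4 * p.r w ^ 2 ≤ ((8 / 9) ^ 3) ^ (2 ^ (k + 1))
  lev : ∀ (A : Type) [AddCommGroup A] (n : ℕ) (m : Fin n → ℕ) (j : Fin n) (i : ℕ), i + 3 ≤ m j → 
    Lev A (RS m) (ES m) (2 ^ (k + 1)) (at_ j (shift i w))
  non : (sz w * sz tl).trace ≠ 1

theorem chi_cjL {u u' : ℂ} (e : u * u' = 1) (h w : List (Bool × ℕ)) (hw : chi u u' w = 1) : 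
    chi u u' (cjL h w) = 1 := by
  unfold cjL
  rw [chi_append, chi_append, hw, mul_one, chi_inv e]

theorem fw_exists (k : ℕ) : ∃ w, Fw k w := by
  obtain ⟨v, hv⟩ := pr_exists k
  obtain ⟨w, h, hcost⟩ : ∃ w, Pr (k + 1) w ∧ ∀ U, costS w U = 0 := by
    rcases step hv.hy with h0 | h1
    · exact ⟨_, pr_step hv 0 (by norm_num) h0, costS_com hv.pure (permL_cjL hv.pure)⟩
    · exact ⟨_, pr_step hv 1 (by norm_num) h1, costS_com hv.pure (permL_cjL hv.pure)⟩
  have key : ∀ g : List (Bool × ℕ), (∀ x ∈ g, x.2 + 1 < 3) → g.length ≤ 1 → (sz (cjL g w) * sz tl).trace ≠ 1 → 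
      Fw k (cjL g w) := by
    intro g hg hl hn
    refine ⟨cjL_lt hg h.lt, permL_cjL h.pure, costS_cjL h.pure hcost, 
      fun u u' e => chi_cjL e _ _ (h.bal u u' e), ?_, fun p => ?_, ?_, hn⟩
    · rw [length_cjL]
      have h1 := h.len
      have h2 : 1 ≤ 4 ^ k := Nat.one_le_pow _ _ (by norm_num)
      rw [pow_succ] at h1
      omega
    · have : p.r (cjL g w) = p.r w := p.r_conj _ _
      rw [this]
      exact h.close p
    · intro A _ n m j i hi
      exact Lev_cjL hi hg (h.lev A n m j i hi)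
  by_contra hc
  push Not at hc
  have hn : ∀ g : List (Bool × ℕ), (∀ x ∈ g, x.2 + 1 < 3) → g.length ≤ 1 → (sz (cjL g w) * sz tl).trace = 1 := by
    intro g hg hl
    by_contra h1
    exact hc _ (key g hg hl h1)
  have e1 := hn [] (by simp) (by simp)
  have e2 := hn [(true, 0)] (by simp) (by simp)
  have e3 := hn [(true, 1)] (by simp) (by simp)
  have e4 := hn [(false, 1)] (by simp) (by simp)
  have s1 : ∀ b c, sz (cjL [(b, c)] w) = s2 (b, c) * sz w * s2 (!b, c) := by
    intro b c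
    unfold cjL
    rw [sz_append, sz_append]
    simp [sz, invL]
  have s0 : sz (cjL [] w) = sz w := by
    unfold cjL
    simp [invL]
  rw [s0] at e1
  rw [s1] at e2 e3 e4
  exact h.hy.one (final e1 e2 e3 e4)

end Pool.Agent.U963.AR
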